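import Pool.Agent.Y868.TH.Q7

/-! The Hardy-Littlewood formula in almost all progressions for almost all quadratics. -/

set_option autoImplicit false

namespace Pool.Agent.Y868.TH

open Finset Filter Topology
open Polynomial (X C)
open scoped Polynomial
open Pool.Agent.H373R2.T7 (pz Vz lamz mem_pz Vz_pos Vz_inv_le Vz_inv_small ev_L')
open Pool.Agent.TH204.WR (rho rho_le V_low)
open Pool.Agent.Y868.TA
open Pool.Agent.Y868.TC
open Pool.Agent.W468.ConjF (Admissible CF CF_pos)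
open Pool.Agent.W218.HF.QFinal (eps gcdProd cutC gcdProd_pos eps_pos)
open Pool.Agent.Y868.TB (evt_root dens_CF)

lemma sq_two (A d p T : ℝ) : (A - d * T) ^ 2 ≤ 2 * (A - d * p) ^ 2 + 2 * ((p - T) ^ 2 * d ^ 2) := by
  nlinarith [sq_nonneg ((A - d * p) - d * (p - T))]

lemma quarter (y L : ℝ) (j : ℕ) (hy : 0 ≤ y) (hL : 4 ≤ L) : y / L ^ (j + 1) ≤ (1 / 4) * y := by
  have h1 : 4 ≤ L ^ (j + 1) := hL.trans (le_self_pow₀ (by linarith) (by omega))
  rw [div_le_iff₀ (by linarith)]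
  have h2 := mul_le_mul_of_nonneg_left h1 hy
  linarith

/-- the sum of the squares of the errors -/
theorem hlF (U K : ℕ) : ∃ C x0 : ℕ, ∀ x : ℕ, x0 ≤ x → ∀ D B : ℕ, Real.log x ^ C ≤ D → (D : ℝ) ≤ (x : ℝ) ^ K →
    (D : ℝ) * x ≤ B * Real.log x ^ K → (B : ℝ) ≤ D * x * Real.log x ^ K → ∀ c : ℤ, c ≠ 0 → |c| ^ 30 ≤ (x : ℤ) →
    ∃ Bad ⊆ Icc 1 D ×ˢ Icc 1 B, (#Bad : ℝ) ≤ D * B / Real.log x ^ U ∧
      ∀ a ∈ Icc 1 D, ∀ b ∈ Icc 1 B, (a, b) ∉ Bad → Admissible a b c →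
        ∃ S : ℝ, 0 < S ∧ Tendsto (fun z => cutC a b c z) atTop (𝓝 S) ∧ ∀ u v : ℕ, u < v → v ≤ x →
          ∀ Q : ℕ, (Q : ℝ) * Real.log x ^ (U + 4) ≤ x →
            ∑ q ∈ Icc 1 Q, ∑ r ∈ range q, ((pcl a b c u v q r : ℝ) -
              (if Int.gcd ((a : ℤ) * (r : ℤ) ^ 2 + b * r + c) q = 1 then 1 / (phq a b c q : ℝ) else 0) *
                (eps a b * S * gcdProd a b * ∑ m ∈ Ioc u v, 1 / Real.log ((a : ℝ) * m ^ 2 + b * m + c))) ^ 2 ≤
              x ^ 2 / Real.log x ^ U := by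
  classical
  obtain ⟨C1, x1, h1⟩ := bdhP 1 2 (U + 1) K le_rfl le_rfl
  obtain ⟨C2, x2, h2⟩ := Pool.Agent.Y868.TB.final (U + 11) K
  obtain ⟨x3, h3⟩ := Vz_inv_log
  obtain ⟨x4, h4⟩ := evt_root 2 (U + K) (by norm_num) 64
  obtain ⟨x5, h5⟩ := evt_polylog K
  obtain ⟨x6, h6⟩ := ev_L' (2 * K + 300)
  refine ⟨max C1 C2 + K, max (max (max x1 x2) (max x3 x4)) (max (max x5 x6) 3), fun x hx D B hD1 hD2 hDB hBD c hc hcx => ?_⟩
  have hx1' : x1 ≤ x := le_trans (le_trans (le_trans (le_max_left _ _) (le_max_left _ _)) (le_max_left _ _)) hx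
  have hx2' : x2 ≤ x := le_trans (le_trans (le_trans (le_max_right _ _) (le_max_left _ _)) (le_max_left _ _)) hx
  have a3 := h3 x (le_trans (le_trans (le_trans (le_max_left _ _) (le_max_right _ _)) (le_max_left _ _)) hx)
  have a4 := h4 x (le_trans (le_trans (le_trans (le_max_right _ _) (le_max_right _ _)) (le_max_left _ _)) hx)
  have a5 := h5 x (le_trans (le_trans (le_trans (le_max_left _ _) (le_max_left _ _)) (le_max_right _ _)) hx)
  have a6 := h6 x (le_trans (le_trans (le_trans (le_max_right _ _) (le_max_left _ _)) (le_max_right _ _)) hx)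
  have hx3 : 3 ≤ x := le_trans (le_trans (le_max_right _ _) (le_max_right _ _)) hx
  set L := Real.log x with hL
  have hK0 : (0 : ℝ) ≤ K := Nat.cast_nonneg _
  have hL300 : 300 ≤ L := by linarith
  have hL1 : 1 ≤ L := by linarith
  have hL0 : 0 < L := by linarith
  have hLp : ∀ n : ℕ, 0 < L ^ n := fun n => by positivity
  have hLp1 : ∀ n : ℕ, 1 ≤ L ^ n := fun n => one_le_pow₀ hL1
  have hLL : ∀ {i j : ℕ}, i ≤ j → L ^ i ≤ L ^ j := fun h => pow_le_pow_right₀ hL1 h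
  have hx0 : (0 : ℝ) < x := by exact_mod_cast (by omega : 0 < x)
  have hxr1 : (1 : ℝ) ≤ x := by exact_mod_cast (by omega : 1 ≤ x)
  have hxr3 : (3 : ℝ) ≤ x := by exact_mod_cast hx3
  -- sizes
  have hC1 : C1 ≤ max C1 C2 + K := le_trans (le_max_left _ _) (Nat.le_add_right _ _)
  have hC2 : C2 ≤ max C1 C2 + K := le_trans (le_max_right _ _) (Nat.le_add_right _ _)
  have hD1K : L ^ K ≤ D := (hLL (by omega)).trans hD1
  have hD1r : (1 : ℝ) ≤ D := (hLp1 K).trans hD1K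
  have hD0 : (0 : ℝ) < D := by linarith
  have hxB : (x : ℝ) ≤ B := by
    have h7 : (x : ℝ) * L ^ K ≤ B * L ^ K := by
      calc (x : ℝ) * L ^ K ≤ x * D := mul_le_mul_of_nonneg_left hD1K hx0.le
        _ = D * x := mul_comm _ _
        _ ≤ _ := hDB
    exact le_of_mul_le_mul_right h7 (hLp K)
  have hB0 : (0 : ℝ) < B := by linarith
  have hBx : (B : ℝ) ≤ (x : ℝ) ^ (K + 2) := by
    calc (B : ℝ) ≤ D * x * L ^ K := hBD
      _ ≤ (x : ℝ) ^ K * x * x := by gcongr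
      _ = _ := by ring
  have hc0 : 1 ≤ |c| := Int.one_le_abs hc
  have hcr : (1 : ℝ) ≤ ((|c| : ℤ) : ℝ) := by exact_mod_cast hc0
  set t : ℝ := (x : ℝ) ^ ((1 : ℝ) / (2 : ℕ)) with ht
  have ht0 : 0 < t := Real.rpow_pos_of_pos hx0 _
  have ht2 : t ^ 2 = x := by
    rw [ht, ← Real.rpow_natCast, ← Real.rpow_mul hx0.le]
    norm_num
  have hct : ((|c| : ℤ) : ℝ) ≤ t := by
    have h7 : (((|c| : ℤ) : ℝ)) ^ 2 ≤ t ^ 2 := by
      rw [ht2]
      calc (((|c| : ℤ) : ℝ)) ^ 2 ≤ (((|c| : ℤ) : ℝ)) ^ 30 := pow_le_pow_right₀ hcr (by norm_num)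
        _ ≤ x := by exact_mod_cast hcx
    exact le_of_pow_le_pow_left₀ (by norm_num) ht0.le h7
  have htx : t ≤ x := by
    rw [← ht2, sq]
    exact le_mul_of_one_le_right ht0.le (hcr.trans hct)
  -- the exceptional sets
  obtain ⟨Bad1, hB1s, hB1c, hB1⟩ := h1 x hx1' D B ((hLL hC1).trans hD1) hD2 hDB hBD (fun _ => 0) (fun _ => by simp) (by
    intro _ m _
    simp only [Polynomial.eval_zero, abs_zero, Int.cast_zero]
    positivity) (fun _ => c) (fun _ => hc) (by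
      intro _
      have h8 : (x : ℝ) * 1 ≤ x * (B * L ^ K) := by
        apply mul_le_mul_of_nonneg_left _ hx0.le
        have h9 : (1 : ℝ) ≤ B := by linarith
        exact one_le_mul_of_one_le_of_one_le h9 (hLp1 K)
      calc ((|c| : ℤ) : ℝ) ≤ t := hct
        _ ≤ x := htx
        _ ≤ x * (B * L ^ K) := by linarith
        _ = B * x * L ^ K := by ring)
  obtain ⟨Bad2, hB2s, hB2c, hB2⟩ := h2 x hx2' D B ((hLL hC2).trans hD1) hD2 hDB hBD c hc hcx
  obtain ⟨b₀, hb₀⟩ : ∃ b₀ : ℕ, b₀ = 4 * c.natAbs := ⟨_, rfl⟩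
  have hcnr : ((c.natAbs : ℕ) : ℝ) = ((|c| : ℤ) : ℝ) := Nat.cast_natAbs c
  set Bad := ((bx D B 1).filter (fun e => e ∈ Bad1)).image (fun e => e 0) ∪ (Bad2 ∪ Icc 1 D ×ˢ Icc 1 b₀ ∩ Icc 1 D ×ˢ Icc 1 B) with hBad
  refine ⟨Bad, ?_, ?_, fun a ha b hb hab hadm => ?_⟩
  · rw [hBad]
    apply union_subset
    · intro q hq
      rw [mem_image] at hq
      obtain ⟨e, he, rfl⟩ := hq
      exact Fintype.mem_piFinset.1 (mem_filter.1 he).1 0
    · exact union_subset hB2s inter_subset_right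
  · have g1 : (#(((bx D B 1).filter (fun e => e ∈ Bad1)).image (fun e => e 0)) : ℝ) ≤ ((D : ℝ) * B) / L ^ (U + 1) := by
      have g2 : #(((bx D B 1).filter (fun e => e ∈ Bad1)).image (fun e => e 0)) ≤ #Bad1 := by
        refine card_image_le.trans (card_le_card ?_)
        intro e he
        exact (mem_filter.1 he).2
      have g3 : (#(((bx D B 1).filter (fun e => e ∈ Bad1)).image (fun e => e 0)) : ℝ) ≤ #Bad1 := by exact_mod_cast g2
      refine g3.trans ?_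
      rw [pow_one] at hB1c
      exact hB1c
    have g2 : (#(Icc 1 D ×ˢ Icc 1 b₀ ∩ Icc 1 D ×ˢ Icc 1 B) : ℝ) ≤ (1 / 4) * ((D : ℝ) * B / L ^ U) := by
      have g3 : (#(Icc 1 D ×ˢ Icc 1 b₀ ∩ Icc 1 D ×ˢ Icc 1 B) : ℝ) ≤ #(Icc 1 D ×ˢ Icc 1 b₀) := by
        exact_mod_cast card_le_card inter_subset_left
      refine g3.trans ?_
      rw [card_product, Nat.card_Icc, Nat.card_Icc, Nat.add_sub_cancel, Nat.add_sub_cancel, hb₀]
      push_cast
      rw [hcnr]
      have e1 : (1 / 4) * ((D : ℝ) * B / L ^ U) = D * (B / (4 * L ^ U)) := by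
        have := (hLp U).ne'
        field_simp
      rw [e1]
      apply mul_le_mul_of_nonneg_left _ hD0.le
      rw [le_div_iff₀ (by positivity)]
      have h8 : ((|c| : ℤ) : ℝ) * (64 * L ^ (U + K)) ≤ x := by
        rw [← ht2, sq]
        exact mul_le_mul hct a4 (by positivity) ht0.le
      have h9 : L ^ U ≤ L ^ (U + K) := hLL (by omega)
      have h10 : 0 < ((|c| : ℤ) : ℝ) := by linarith
      have h11 : ((|c| : ℤ) : ℝ) * L ^ U ≤ ((|c| : ℤ) : ℝ) * L ^ (U + K) := mul_le_mul_of_nonneg_left h9 h10.le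
      have h12 := hLp (U + K)
      have h13 : 0 < ((|c| : ℤ) : ℝ) * L ^ (U + K) := by positivity
      calc 4 * ((|c| : ℤ) : ℝ) * (4 * L ^ U) = 16 * (((|c| : ℤ) : ℝ) * L ^ U) := by ring
        _ ≤ 64 * (((|c| : ℤ) : ℝ) * L ^ (U + K)) := by linarith
        _ = ((|c| : ℤ) : ℝ) * (64 * L ^ (U + K)) := by ring
        _ ≤ x := h8
        _ ≤ B := hxB
    have hDB0 : (0 : ℝ) ≤ D * B := by positivity
    have hsm : ∀ j : ℕ, (D : ℝ) * B / L ^ (U + (j + 1)) ≤ (1 / 4) * ((D : ℝ) * B / L ^ U) := by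
      intro j
      rw [pow_add, ← div_div]
      exact quarter _ L j (by positivity) (by linarith)
    have g4 := hsm 0
    have g5 := hsm 10
    have g6 : (#Bad : ℝ) ≤ #(((bx D B 1).filter (fun e => e ∈ Bad1)).image (fun e => e 0)) + (#Bad2 + #(Icc 1 D ×ˢ Icc 1 b₀ ∩ Icc 1 D ×ˢ Icc 1 B)) := by
      have g7 := card_union_le (((bx D B 1).filter (fun e => e ∈ Bad1)).image (fun e => e 0)) (Bad2 ∪ Icc 1 D ×ˢ Icc 1 b₀ ∩ Icc 1 D ×ˢ Icc 1 B)
      have g8 := card_union_le Bad2 (Icc 1 D ×ˢ Icc 1 b₀ ∩ Icc 1 D ×ˢ Icc 1 B)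
      rw [← hBad] at g7
      exact_mod_cast g7.trans (Nat.add_le_add_left g8 _)
    have h8 : 0 ≤ (D : ℝ) * B / L ^ U := by positivity
    have g9 : (D : ℝ) * B / L ^ (U + 1) ≤ (1 / 4) * ((D : ℝ) * B / L ^ U) := g4
    have g10 : (D : ℝ) * B / L ^ (U + 11) ≤ (1 / 4) * ((D : ℝ) * B / L ^ U) := g5
    linarith
  -- a good pair
  rw [hBad, mem_union, mem_union, not_or, not_or] at hab
  obtain ⟨hab1, hab2, hab3⟩ := hab
  have ha' := mem_Icc.1 ha
  have hb' := mem_Icc.1 hb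
  have hbc : b₀ < b := by
    by_contra hcon
    apply hab3
    rw [mem_inter, mem_product, mem_product]
    exact ⟨⟨ha, mem_Icc.2 ⟨hb'.1, by omega⟩⟩, ha, hb⟩
  have hval3 : ∀ m : ℕ, 1 ≤ m → 3 ≤ (a : ℤ) * (m : ℤ) ^ 2 + b * m + c := by
    intro m hm
    have h7 : (|c| : ℤ) = (c.natAbs : ℤ) := (Int.natCast_natAbs c).symm
    have h8 : (4 * |c| : ℤ) < b := by
      rw [h7]
      have : 4 * c.natAbs < b := by omega
      exact_mod_cast this
    have h9 : (1 : ℤ) ≤ a := by exact_mod_cast ha'.1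
    have h10 : (1 : ℤ) ≤ m := by exact_mod_cast hm
    have h11 : -|c| ≤ c := neg_abs_le c
    have h12 : (b : ℤ) ≤ b * m := le_mul_of_one_le_right (by positivity) h10
    have h13 : 0 ≤ (a : ℤ) * (m : ℤ) ^ 2 := by positivity
    linarith
  obtain ⟨S, hS0, hSl, hS⟩ := hB2 a ha b hb hab2 hadm
  refine ⟨S, hS0, hSl, fun u v huv hvx Q hQ => ?_⟩
  set M : ℝ := eps a b * S * gcdProd a b with hM
  have hM0 : 0 < M := by
    rw [hM]
    have := eps_pos a b
    have := gcdProd_pos a b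
    positivity
  set e : Fin 1 → ℕ × ℕ := fun _ => (a, b) with he
  have hebx : e ∈ bx D B 1 := Fintype.mem_piFinset.2 fun _ => mem_product.2 ⟨ha, hb⟩
  have heb : e ∉ Bad1 := by
    intro h7
    apply hab1
    rw [mem_image]
    exact ⟨e, mem_filter.2 ⟨hebx, h7⟩, rfl⟩
  have hqd : mem1 (fun _ => 0) (fun _ => c) e = qd a b c := rfl
  set F : ℤ[X] := ∏ i, qd a b c i with hF
  -- the bound for the constant
  have hLI : ∀ m ∈ Ioc 0 x, 1 / ((K + 4) * L) ≤ 1 / Real.log ((a : ℝ) * m ^ 2 + b * m + c) := by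
    intro m hm
    rw [mem_Ioc] at hm
    have h7 : (3 : ℝ) ≤ (a : ℝ) * m ^ 2 + b * m + c := by exact_mod_cast hval3 m hm.1
    have h8 : (a : ℝ) * m ^ 2 + b * m + c ≤ (x : ℝ) ^ (K + 4) := by
      have hm' : (m : ℝ) ≤ x := by exact_mod_cast hm.2
      have hm0 : (0 : ℝ) ≤ m := Nat.cast_nonneg m
      have haD : (a : ℝ) ≤ x ^ K := le_trans (by exact_mod_cast ha'.2) hD2
      have hbB : (b : ℝ) ≤ x ^ (K + 2) := le_trans (by exact_mod_cast hb'.2) hBx
      have hcx' : (c : ℝ) ≤ x := by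
        have : (c : ℝ) ≤ ((|c| : ℤ) : ℝ) := by exact_mod_cast le_abs_self c
        linarith
      have f1 : (a : ℝ) * m ^ 2 ≤ x ^ K * x ^ 2 := by gcongr
      have f2 : (b : ℝ) * m ≤ x ^ (K + 2) * x := by gcongr
      have f3 : (x : ℝ) ≤ x ^ (K + 3) := le_self_pow₀ hxr1 (by omega)
      have f4 : (x : ℝ) ^ K * x ^ 2 ≤ x ^ (K + 3) := by
        rw [← pow_add]; exact pow_le_pow_right₀ hxr1 (by omega)
      have f5 : (x : ℝ) ^ (K + 2) * x = x ^ (K + 3) := by ring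
      have f6 : (x : ℝ) ^ (K + 4) = x * x ^ (K + 3) := by ring
      have f7 : 0 < (x : ℝ) ^ (K + 3) := by positivity
      have f8 : 3 * (x : ℝ) ^ (K + 3) ≤ x * x ^ (K + 3) := mul_le_mul_of_nonneg_right hxr3 f7.le
      rw [f6]
      linarith
    apply one_div_le_one_div_of_le (Real.log_pos (by linarith))
    have h9 := Real.log_le_log (by linarith) h8
    rw [Real.log_pow] at h9
    push_cast at h9
    exact h9
  have hM2 : M ≤ L ^ 2 := by
    have h7 := (abs_le.1 (hS 0 x (by omega) le_rfl)).1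
    have h8 : (#((Ioc 0 x).filter (fun m : ℕ => ((a : ℤ) * (m : ℤ) ^ 2 + b * m + c).toNat.Prime)) : ℝ) ≤ x := by
      have h9 := card_filter_le (Ioc 0 x) (fun m : ℕ => ((a : ℤ) * (m : ℤ) ^ 2 + b * m + c).toNat.Prime)
      rw [Nat.card_Ioc, Nat.sub_zero] at h9
      exact_mod_cast h9
    have h10 : (x : ℝ) * (1 / ((K + 4) * L)) ≤ ∑ m ∈ Ioc 0 x, 1 / Real.log ((a : ℝ) * m ^ 2 + b * m + c) := by
      calc (x : ℝ) * (1 / ((K + 4) * L)) = ∑ _m ∈ Ioc 0 x, 1 / ((K + 4) * L) := by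
            rw [sum_const, Nat.card_Ioc, nsmul_eq_mul, Nat.sub_zero]
        _ ≤ _ := sum_le_sum hLI
    have h11 : M * x / L ^ (U + 11) ≤ M * x * (1 / (2 * ((K + 4) * L))) := by
      rw [div_eq_mul_one_div]
      apply mul_le_mul_of_nonneg_left _ (by positivity)
      apply one_div_le_one_div_of_le (by positivity)
      have h12 : L * L ≤ L ^ (U + 11) := by
        rw [← sq]; exact hLL (by omega)
      refine le_trans ?_ h12
      have h13 : 2 * ((K : ℝ) + 4) ≤ L := by linarith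
      calc 2 * (((K : ℝ) + 4) * L) = (2 * ((K : ℝ) + 4)) * L := by ring
        _ ≤ L * L := mul_le_mul_of_nonneg_right h13 hL0.le
    have h13 := mul_le_mul_of_nonneg_left h10 hM0.le
    have h14 : M * x * (1 / (2 * ((K + 4) * L))) = (1 / 2) * (M * (x * (1 / ((K + 4) * L)))) := by
      field_simp
    have h15 : (1 / 2) * (M * (x * (1 / ((K + 4) * L)))) ≤ x := by linarith
    have h16 : M ≤ 2 * ((K + 4) * L) := by
      have h17 : (1 / 2) * (M * (x * (1 / ((K + 4) * L)))) = (M / (2 * ((K + 4) * L))) * x := by field_simp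
      rw [h17] at h15
      have h18 : M / (2 * ((K + 4) * L)) ≤ 1 := by
        have h19 : (M / (2 * ((K + 4) * L))) * x ≤ 1 * x := by linarith
        exact le_of_mul_le_mul_right h19 hx0
      rwa [div_le_one (by positivity)] at h18
    have h20 : 2 * ((K : ℝ) + 4) ≤ L := by linarith
    calc M ≤ 2 * (((K : ℝ) + 4) * L) := h16
      _ = (2 * ((K : ℝ) + 4)) * L := by ring
      _ ≤ L * L := mul_le_mul_of_nonneg_right h20 hL0.le
      _ = L ^ 2 := (sq L).symm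
  have hMw := hS u v huv hvx
  set T : ℝ := ∑ m ∈ Ioc u v, 1 / Real.log ((a : ℝ) * m ^ 2 + b * m + c) with hT
  have hrho : ∀ p : ℕ, p.Prime → rho F 0 p < p := fun p hp => qd_rho a b c hadm p hp
  have hmain := hB1 e hebx heb hrho u v huv hvx (fun i m hm => by
    rw [mem_Ioc] at hm
    rw [hqd, qd_eval]
    exact hval3 m (by omega)) Q (by
      rw [show U + 1 + 3 = U + 4 by ring]
      exact hQ)
  have hdeg : F.natDegree ≤ 2 := by
    rw [hF, Fin.prod_univ_one]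
    exact mem1_deg le_rfl (fun _ => 0) (fun _ => by simp) (fun _ => c) (fun _ => (a, b)) 0
  have hQx : Q ≤ x := by
    have h7 : (Q : ℝ) * 1 ≤ Q * L ^ (U + 4) := mul_le_mul_of_nonneg_left (hLp1 _) (Nat.cast_nonneg _)
    have : (Q : ℝ) ≤ x := by linarith
    exact_mod_cast this
  have hsum := sum_phi F 2 x Q hQx (by norm_num) hdeg hrho (L ^ 3) a3
  have hlogQ : Real.log Q ≤ L := by
    rcases Nat.eq_zero_or_pos Q with h | h
    · rw [h]; simp; exact hL0.le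
    · apply Real.log_le_log (by exact_mod_cast h)
      exact_mod_cast hQx
  have hterm : ∀ q ∈ Icc 1 Q, ∀ r ∈ range q, ((pcl a b c u v q r : ℝ) -
      (if Int.gcd ((a : ℤ) * (r : ℤ) ^ 2 + b * r + c) q = 1 then 1 / (phq a b c q : ℝ) else 0) * (M * T)) ^ 2 ≤
      2 * ((cnt (qd a b c) ((Ioc u v).filter (fun m => m % q = r)) : ℝ) - dn F q r * cnt (qd a b c) (Ioc u v)) ^ 2 +
      2 * (L ^ 2 * x / L ^ (U + 11)) ^ 2 * dn F q r ^ 2 := by
    intro q _ r _
    have h7 : (if Int.gcd ((a : ℤ) * (r : ℤ) ^ 2 + b * r + c) q = 1 then 1 / (phq a b c q : ℝ) else 0) = dn F q r := by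
      unfold dn
      rw [hF, phq_eq]
      simp only [qd_prod]
    rw [h7, ← pcl_eq]
    set A : ℝ := (cnt (qd a b c) ((Ioc u v).filter (fun m => m % q = r)) : ℝ)
    have h8 : |(cnt (qd a b c) (Ioc u v) : ℝ) - M * T| ≤ L ^ 2 * x / L ^ (U + 11) := by
      rw [pcl_all]
      refine hMw.trans ?_
      apply div_le_div_of_nonneg_right _ (hLp _).le
      exact mul_le_mul_of_nonneg_right hM2 hx0.le
    set π : ℝ := (cnt (qd a b c) (Ioc u v) : ℝ)
    have h9 : (π - M * T) ^ 2 ≤ (L ^ 2 * x / L ^ (U + 11)) ^ 2 := by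
      rw [← sq_abs]
      exact pow_le_pow_left₀ (abs_nonneg _) h8 2
    have h10 : (A - dn F q r * (M * T)) ^ 2 ≤ 2 * (A - dn F q r * π) ^ 2 + 2 * ((π - M * T) ^ 2 * dn F q r ^ 2) :=
      sq_two A (dn F q r) π (M * T)
    have h11 := mul_le_mul_of_nonneg_right h9 (sq_nonneg (dn F q r))
    linarith
  refine (sum_le_sum fun q hq => sum_le_sum fun r hr => hterm q hq r hr).trans ?_
  simp_rw [sum_add_distrib, ← mul_sum]
  rw [hqd] at hmain
  have f1 : 2 * ((x : ℝ) ^ 2 / L ^ (U + 1)) ≤ (1 / 2) * (x ^ 2 / L ^ U) := by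
    have h8 := quarter ((x : ℝ) ^ 2 / L ^ U) L 0 (by positivity) (by linarith)
    rw [zero_add, pow_one] at h8
    rw [pow_succ L U, ← div_div]
    linarith
  have f2 : 2 * (L ^ 2 * x / L ^ (U + 11)) ^ 2 * ∑ q ∈ Icc 1 Q, ∑ r ∈ range q, dn F q r ^ 2 ≤ (1 / 2) * (x ^ 2 / L ^ U) := by
    have h7 : ∑ q ∈ Icc 1 Q, ∑ r ∈ range q, dn F q r ^ 2 ≤ L ^ 15 := by
      refine hsum.trans ?_
      push_cast
      have h8 : (2 * 2 : ℝ) ^ (2 * 2) * (L ^ 3) ^ (2 * 2) = 256 * L ^ 12 := by norm_num [← pow_mul]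
      rw [h8]
      have hlogQ0 : 0 ≤ Real.log Q := Real.log_natCast_nonneg Q
      calc 256 * L ^ 12 * (1 + Real.log Q) ≤ L * L ^ 12 * (L * L) := by
            apply mul_le_mul _ _ (by linarith) (by positivity)
            · apply mul_le_mul_of_nonneg_right _ (by positivity)
              linarith
            · have h9 : 2 * L ≤ L * L := mul_le_mul_of_nonneg_right (by linarith) hL0.le
              linarith
        _ = L ^ 15 := by ring
    calc 2 * (L ^ 2 * x / L ^ (U + 11)) ^ 2 * ∑ q ∈ Icc 1 Q, ∑ r ∈ range q, dn F q r ^ 2 ≤ 2 * (L ^ 2 * x / L ^ (U + 11)) ^ 2 * L ^ 15 :=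
          mul_le_mul_of_nonneg_left h7 (by positivity)
      _ = (2 / (L ^ U * L ^ 3)) * (x ^ 2 / L ^ U) := by
          rw [pow_add L U 11]
          have := (hLp U).ne'
          field_simp
      _ ≤ (1 / 2) * (x ^ 2 / L ^ U) := by
          apply mul_le_mul_of_nonneg_right _ (by positivity)
          rw [div_le_div_iff₀ (by positivity) (by norm_num)]
          have h8 := hLp1 U
          have h9 : L ≤ L ^ 3 := le_self_pow₀ hL1 (by norm_num)
          have h10 : 1 * L ^ 3 ≤ L ^ U * L ^ 3 := mul_le_mul_of_nonneg_right h8 (hLp 3).le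
          linarith
  linarith

end Pool.Agent.Y868.TH
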