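import Mathlib
import Pool.Agent.Y868.TC.P1

/-! Counting the residues at which a polynomial is coprime to the modulus. -/

set_option autoImplicit false

namespace Pool.Agent.Y868.TH

open Finset
open Polynomial (X C)
open scoped Polynomial
open Pool.Agent.H373R2.T7 (pz Vz mem_pz Vz_pos Vz_inv_le)
open Pool.Agent.TH204.WR (rho rho_le V_low)
open Pool.Agent.Y868.TC (dvd_mod)

/-- the elements of `range M` congruent to `r` modulo `q` at which no prime of `S` divides `F` -/
noncomputable def cN (F : ℤ[X]) (M q r : ℕ) (S : Finset ℕ) : ℕ :=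
  #((range M).filter (fun m : ℕ => m % q = r % q ∧ ∀ p ∈ S, ¬ (p : ℤ) ∣ F.eval (m : ℤ)))

lemma card_class (q r t : ℕ) (hq : 1 ≤ q) : #((range (q * t)).filter (fun m : ℕ => m % q = r % q)) = t := by
  have h1 : (range (q * t)).filter (fun m : ℕ => m % q = r % q) = (range t).image (fun j => r % q + q * j) := by
    ext m
    rw [mem_filter, mem_range, mem_image]
    constructor
    · rintro ⟨h1, h2⟩
      refine ⟨m / q, mem_range.2 (Nat.div_lt_of_lt_mul h1), ?_⟩
      rw [← h2]
      exact Nat.mod_add_div m q
    · rintro ⟨j, hj, rfl⟩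
      rw [mem_range] at hj
      have h3 := Nat.mod_lt r (by omega : 0 < q)
      constructor
      · calc r % q + q * j < q + q * j := by omega
          _ = q * (j + 1) := by ring
          _ ≤ q * t := Nat.mul_le_mul_left q hj
      · rw [Nat.add_mul_mod_self_left, Nat.mod_mod]
  rw [h1, card_image_of_injective, card_range]
  intro a b hab
  simp only at hab
  exact Nat.eq_of_mul_eq_mul_left (by omega : 0 < q) (Nat.add_left_cancel hab)

theorem cN_eq (F : ℤ[X]) (S : Finset ℕ) : (∀ p ∈ S, p.Prime) → ∀ M q r : ℕ, 1 ≤ q → (∀ p ∈ S, Nat.Coprime q p) →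
    q * ∏ p ∈ S, p ∣ M → (cN F M q r S : ℝ) = (M / q) * ∏ p ∈ S, (1 - (rho F 0 p : ℝ) / p) := by
  classical
  induction S using Finset.induction_on with
  | empty =>
    intro _ M q r hq _ hM
    rw [prod_empty, mul_one] at hM
    obtain ⟨t, rfl⟩ := hM
    unfold cN
    simp only [notMem_empty, IsEmpty.forall_iff, implies_true, and_true]
    rw [card_class q r t hq, prod_empty, mul_one]
    have : (q : ℝ) ≠ 0 := by exact_mod_cast (by omega : q ≠ 0)
    push_cast
    field_simp
  | insert p S hpS ih =>
    intro hS M q r hq hcop hM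
    have hp : p.Prime := hS p (mem_insert_self p S)
    have hqp : Nat.Coprime q p := hcop p (mem_insert_self p S)
    rw [prod_insert hpS] at hM
    have hS' : ∀ p' ∈ S, p'.Prime := fun p' hp' => hS p' (mem_insert_of_mem hp')
    have h1 := ih hS' M q r hq (fun p' hp' => hcop p' (mem_insert_of_mem hp'))
      (dvd_trans ⟨p, by ring⟩ hM)
    -- the classes modulo `q p`
    set A : Finset ℕ := (range p).filter (fun a : ℕ => (p : ℤ) ∣ F.eval (a : ℤ) + 0) with hA
    have h2 : ∀ a ∈ A, (cN F M (q * p) (Nat.chineseRemainder hqp r a) S : ℝ) = (M / (q * p : ℕ)) * ∏ p ∈ S, (1 - (rho F 0 p : ℝ) / p) := by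
      intro a _
      apply ih hS' M (q * p) _ (Nat.mul_pos hq hp.pos)
      · intro p' hp'
        apply Nat.Coprime.mul_left (hcop p' (mem_insert_of_mem hp'))
        rw [Nat.coprime_primes hp (hS' p' hp')]
        rintro rfl
        exact hpS hp'
      · rw [mul_assoc]; exact hM
    have h3 : cN F M q r S = cN F M q r (insert p S) + ∑ a ∈ A, cN F M (q * p) (Nat.chineseRemainder hqp r a) S := by
      have h4 := card_filter_add_card_filter_not (s := (range M).filter (fun m : ℕ => m % q = r % q ∧ ∀ p ∈ S, ¬ (p : ℤ) ∣ F.eval (m : ℤ)))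
        (p := fun m : ℕ => ¬ (p : ℤ) ∣ F.eval (m : ℤ))
      unfold cN
      rw [← h4]
      congr 1
      · congr 1
        rw [filter_filter]
        apply filter_congr
        intro m _
        constructor
        · rintro ⟨⟨h5, h6⟩, h7⟩
          refine ⟨h5, fun p' hp' => ?_⟩
          rcases mem_insert.1 hp' with rfl | h8
          · exact h7
          · exact h6 p' h8
        · rintro ⟨h5, h6⟩
          exact ⟨⟨h5, fun p' hp' => h6 p' (mem_insert_of_mem hp')⟩, h6 p (mem_insert_self p S)⟩
      · rw [card_eq_sum_card_fiberwise (f := fun m => m % p) (t := A)]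
        · refine sum_congr rfl fun a ha => ?_
          congr 1
          rw [hA, mem_filter, mem_range] at ha
          rw [filter_filter, filter_filter]
          apply filter_congr
          intro m _
          have hc := (Nat.chineseRemainder hqp r a).2
          have h5 : m % (q * p) = (Nat.chineseRemainder hqp r a : ℕ) % (q * p) ↔ (m % q = r % q ∧ m % p = a) := by
            have e1 : m % (q * p) = (Nat.chineseRemainder hqp r a : ℕ) % (q * p) ↔ m ≡ (Nat.chineseRemainder hqp r a : ℕ) [MOD q * p] := Iff.rfl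
            rw [e1, ← Nat.modEq_and_modEq_iff_modEq_mul hqp]
            constructor
            · rintro ⟨g1, g2⟩
              refine ⟨g1.trans hc.1, ?_⟩
              have g3 := g2.trans hc.2
              rw [Nat.ModEq, Nat.mod_eq_of_lt ha.1] at g3
              exact g3
            · rintro ⟨g1, g2⟩
              refine ⟨Nat.ModEq.trans g1 hc.1.symm, Nat.ModEq.trans ?_ hc.2.symm⟩
              rw [Nat.ModEq, Nat.mod_eq_of_lt ha.1]
              exact g2
          constructor
          · rintro ⟨⟨g1, g2⟩, g3, g4⟩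
            exact ⟨h5.2 ⟨g1, g4⟩, g2⟩
          · rintro ⟨g1, g2⟩
            have g3 := h5.1 g1
            refine ⟨⟨g3.1, g2⟩, ?_, g3.2⟩
            rw [not_not]
            apply (dvd_mod F p m a _).2
            · have := ha.2
              rwa [add_zero] at this
            · rw [Nat.ModEq, Nat.mod_eq_of_lt ha.1]
              exact g3.2
        · intro m hm
          rw [mem_coe, mem_filter, not_not] at hm
          rw [mem_coe, hA, mem_filter, mem_range]
          refine ⟨Nat.mod_lt _ hp.pos, ?_⟩
          rw [add_zero]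
          exact (dvd_mod F p (m % p) m (Nat.mod_modEq m p)).2 hm.2
    have h4 : (cN F M q r (insert p S) : ℝ) = cN F M q r S - ∑ a ∈ A, (cN F M (q * p) (Nat.chineseRemainder hqp r a) S : ℝ) := by
      rw [h3]; push_cast; ring
    rw [h4, h1, sum_congr rfl h2, sum_const, prod_insert hpS, nsmul_eq_mul]
    have h5 : (#A : ℝ) = rho F 0 p := by
      rw [hA]; rfl
    rw [h5]
    have hq0 : (q : ℝ) ≠ 0 := by exact_mod_cast (by omega : q ≠ 0)
    have hp0 : (p : ℝ) ≠ 0 := by exact_mod_cast hp.ne_zero
    push_cast
    field_simp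

/-- the number of residues at which `F` is coprime to `q` -/
noncomputable def phiF (F : ℤ[X]) (q : ℕ) : ℕ := #((range q).filter (fun r : ℕ => Int.gcd (F.eval (r : ℤ)) q = 1))

lemma cop_iff (n : ℤ) (q : ℕ) (hq : 1 ≤ q) : Int.gcd n q = 1 ↔ ∀ p ∈ q.primeFactors, ¬ (p : ℤ) ∣ n := by
  constructor
  · intro h p hp hd
    rw [Nat.mem_primeFactors] at hp
    have h1 : p ∣ Int.gcd n q := by
      apply Int.dvd_gcd hd
      exact_mod_cast hp.2.1
    rw [h] at h1
    exact hp.1.one_lt.ne' (Nat.dvd_one.1 h1)
  · intro h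
    by_contra hne
    obtain ⟨p, hp, hd⟩ := Nat.exists_prime_and_dvd hne
    have h1 := hd.trans (Int.gcd_dvd_natAbs_right n q)
    rw [Int.natAbs_natCast] at h1
    apply h p (Nat.mem_primeFactors.2 ⟨hp, h1, by omega⟩)
    have h2 := hd.trans (Int.gcd_dvd_natAbs_left n q)
    exact Int.natCast_dvd.2 h2

end Pool.Agent.Y868.TH
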