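import Pool.Agent.Y868.TH.Q1

/-! The number of residues at which a polynomial is coprime to the modulus, and the fibres. -/

set_option autoImplicit false

namespace Pool.Agent.Y868.TH

open Finset Filter
open Polynomial (X C)
open scoped Polynomial
open Pool.Agent.H373R2.T7 (pz Vz mem_pz Vz_pos Vz_inv_le)
open Pool.Agent.TH204.WR (rho rho_le V_low)
open Pool.Agent.Y868.TC (dvd_mod)

lemma phiF_eq (F : ℤ[X]) (q : ℕ) (hq : 1 ≤ q) : (phiF F q : ℝ) = q * ∏ p ∈ q.primeFactors, (1 - (rho F 0 p : ℝ) / p) := by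
  have h1 := cN_eq F q.primeFactors (fun p hp => Nat.prime_of_mem_primeFactors hp) q 1 0 le_rfl
    (fun p _ => Nat.coprime_one_left p) (by rw [one_mul]; exact Nat.prod_primeFactors_dvd q)
  rw [Nat.cast_one, div_one] at h1
  rw [← h1]
  unfold phiF cN
  congr 2
  apply filter_congr
  intro m _
  rw [cop_iff _ _ hq]
  simp [Nat.mod_one]

/-- the fibres of the reduction, modulo `q` dividing `W` -/
lemma fibre (F : ℤ[X]) (W q r : ℕ) (hW : 1 ≤ W) (hq : 1 ≤ q) (hqW : q ∣ W) :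
    (#((range W).filter (fun m : ℕ => m % q = r % q ∧ Int.gcd (F.eval (m : ℤ)) W = 1)) : ℝ) * phiF F q =
      if Int.gcd (F.eval (r : ℤ)) q = 1 then (phiF F W : ℝ) else 0 := by
  have hsub : q.primeFactors ⊆ W.primeFactors := Nat.primeFactors_mono hqW (by omega)
  have hcong : ∀ m : ℕ, m % q = r % q → ∀ p ∈ q.primeFactors, ((p : ℤ) ∣ F.eval (m : ℤ) ↔ (p : ℤ) ∣ F.eval (r : ℤ)) := by
    intro m hm p hp
    apply dvd_mod
    have h1 : m ≡ r [MOD q] := hm
    exact h1.of_dvd (Nat.dvd_of_mem_primeFactors hp)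
  split_ifs with h
  · rw [cop_iff _ _ hq] at h
    have h1 : (range W).filter (fun m : ℕ => m % q = r % q ∧ Int.gcd (F.eval (m : ℤ)) W = 1) =
        (range W).filter (fun m : ℕ => m % q = r % q ∧ ∀ p ∈ W.primeFactors \ q.primeFactors, ¬ (p : ℤ) ∣ F.eval (m : ℤ)) := by
      apply filter_congr
      intro m _
      rw [cop_iff _ _ hW]
      constructor
      · rintro ⟨h2, h3⟩
        exact ⟨h2, fun p hp => h3 p (Finset.mem_sdiff.1 hp).1⟩
      · rintro ⟨h2, h3⟩
        refine ⟨h2, fun p hp => ?_⟩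
        by_cases hpq : p ∈ q.primeFactors
        · rw [hcong m h2 p hpq]
          exact h p hpq
        · exact h3 p (Finset.mem_sdiff.2 ⟨hp, hpq⟩)
    have hcop : Nat.Coprime q (∏ p ∈ W.primeFactors \ q.primeFactors, p) := by
      apply Nat.Coprime.prod_right
      intro p hp
      rw [Finset.mem_sdiff] at hp
      have hpp := Nat.prime_of_mem_primeFactors hp.1
      rw [Nat.coprime_comm, hpp.coprime_iff_not_dvd]
      intro hd
      exact hp.2 (Nat.mem_primeFactors.2 ⟨hpp, hd, by omega⟩)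
    have h2 := cN_eq F (W.primeFactors \ q.primeFactors) (fun p hp => Nat.prime_of_mem_primeFactors (Finset.mem_sdiff.1 hp).1) W q r hq
      (fun p hp => Nat.Coprime.coprime_dvd_right (dvd_prod_of_mem _ hp) hcop)
      (Nat.Coprime.mul_dvd_of_dvd_of_dvd hcop hqW
        ((prod_dvd_prod_of_subset _ _ _ sdiff_subset).trans (Nat.prod_primeFactors_dvd W)))
    rw [h1]
    unfold cN at h2
    rw [h2, phiF_eq F q hq, phiF_eq F W hW, ← prod_sdiff hsub]
    have hq0 : (q : ℝ) ≠ 0 := by exact_mod_cast (by omega : q ≠ 0)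
    field_simp
  · have h1 : (range W).filter (fun m : ℕ => m % q = r % q ∧ Int.gcd (F.eval (m : ℤ)) W = 1) = ∅ := by
      rw [filter_eq_empty_iff]
      rintro m _ ⟨h2, h3⟩
      apply h
      rw [cop_iff _ _ hq]
      rw [cop_iff _ _ hW] at h3
      intro p hp
      rw [← hcong m h2 p hp]
      exact h3 p (hsub hp)
    rw [h1, card_empty]
    push_cast
    ring

lemma gcd_mod (F : ℤ[X]) (W m n : ℕ) (h : m ≡ n [MOD W]) : Int.gcd (F.eval (m : ℤ)) W = 1 ↔ Int.gcd (F.eval (n : ℤ)) W = 1 := by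
  rcases Nat.eq_zero_or_pos W with hW | hW
  · rw [hW, Nat.modEq_zero_iff] at h
    rw [h]
  · rw [cop_iff _ _ hW, cop_iff _ _ hW]
    constructor
    · intro h1 p hp
      rw [← dvd_mod F p m n (h.of_dvd (Nat.dvd_of_mem_primeFactors hp))]
      exact h1 p hp
    · intro h1 p hp
      rw [dvd_mod F p m n (h.of_dvd (Nat.dvd_of_mem_primeFactors hp))]
      exact h1 p hp

/-- the fibres, over the complete system of residues `1, …, W` -/
lemma fibre' (F : ℤ[X]) (W q r : ℕ) (hW : 1 ≤ W) (hq : 1 ≤ q) (hqW : q ∣ W) (hr : r < q) :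
    (#((Icc 1 W).filter (fun m : ℕ => m % q = r ∧ Int.gcd (F.eval (m : ℤ)) W = 1)) : ℝ) * phiF F q =
      if Int.gcd (F.eval (r : ℤ)) q = 1 then (phiF F W : ℝ) else 0 := by
  rw [← fibre F W q r hW hq hqW]
  congr 2
  have hper : Function.Periodic (fun m : ℕ => m % q = r ∧ Int.gcd (F.eval (m : ℤ)) W = 1) W := by
    intro m
    simp only [eq_iff_iff]
    have h1 : (m + W) % q = m % q := by
      obtain ⟨t, rfl⟩ := hqW
      rw [Nat.add_mul_mod_self_left]
    have h2 := gcd_mod F W (m + W) m (by rw [Nat.ModEq, Nat.add_mod_right])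
    rw [h1, h2]
  have h3 := Nat.filter_Ico_card_eq_of_periodic 1 W _ hper
  have h4 := Nat.filter_Ico_card_eq_of_periodic 0 W _ hper
  have e1 : Icc 1 W = Ico 1 (1 + W) := by
    ext m
    rw [mem_Icc, mem_Ico]
    omega
  have e2 : range W = Ico 0 (0 + W) := by
    ext m
    rw [mem_range, mem_Ico]
    omega
  rw [e1, e2, h3, ← h4, Nat.mod_eq_of_lt hr]

lemma card_unit (F : ℤ[X]) (W : ℕ) :
    #((Icc 1 W).filter (fun m : ℕ => Int.gcd (F.eval (m : ℤ)) W = 1)) = phiF F W := by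
  have hper : Function.Periodic (fun m : ℕ => Int.gcd (F.eval (m : ℤ)) W = 1) W := by
    intro m
    simp only [eq_iff_iff]
    exact gcd_mod F W (m + W) m (by rw [Nat.ModEq, Nat.add_mod_right])
  have h3 := Nat.filter_Ico_card_eq_of_periodic 1 W _ hper
  have h4 := Nat.filter_Ico_card_eq_of_periodic 0 W _ hper
  have e1 : Icc 1 W = Ico 1 (1 + W) := by
    ext m
    rw [mem_Icc, mem_Ico]
    omega
  have e2 : range W = Ico 0 (0 + W) := by
    ext m
    rw [mem_range, mem_Ico]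
    omega
  unfold phiF
  rw [e1, e2, h3, ← h4]

lemma phiF_one (F : ℤ[X]) : phiF F 1 = 1 := by
  unfold phiF
  simp

/-- the factorial -/
lemma fact_pf (x : ℕ) : (x.factorial).primeFactors = pz x := by
  ext p
  rw [Nat.mem_primeFactors, mem_pz]
  constructor
  · rintro ⟨hp, hd, _⟩
    exact ⟨(hp.dvd_factorial).1 hd, hp⟩
  · rintro ⟨h, hp⟩
    exact ⟨hp, (hp.dvd_factorial).2 h, Nat.factorial_ne_zero x⟩

/-- Mertens: a bound for the inverse of the product over all primes up to `x` -/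
lemma Vz_inv_log : ∃ n0 : ℕ, ∀ x : ℕ, n0 ≤ x → (Vz x)⁻¹ ≤ Real.log x ^ 3 := by
  obtain ⟨C, hC⟩ := Pool.Agent.Helper256.KM.mertens_inv
  obtain ⟨n1, h1⟩ := Pool.Agent.H373R2.T7.ev_L' (Real.exp (2 * C) + 1)
  refine ⟨max n1 3, fun x hx => ?_⟩
  have hL := h1 x ((le_max_left _ _).trans hx)
  have hx3 : 3 ≤ x := (le_max_right _ _).trans hx
  have h4 := hC x hx3
  have h5 : (Vz x)⁻¹ ≤ Real.exp (2 * ∑ p ∈ pz x, 1 / (p : ℝ)) := by
    unfold Vz
    rw [← prod_inv_distrib, mul_sum, Real.exp_sum]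
    apply Finset.prod_le_prod
    · intro p hp
      have hp2 : (2 : ℝ) ≤ p := by exact_mod_cast (mem_pz.1 hp).2.two_le
      apply inv_nonneg.2
      rw [sub_nonneg, div_le_one (by linarith)]; linarith
    · intro p hp
      have hp2 : (2 : ℝ) ≤ p := by exact_mod_cast (mem_pz.1 hp).2.two_le
      have h6 : (1 - 1 / (p : ℝ))⁻¹ ≤ 2 * (1 / p) + 1 := by
        rw [inv_le_iff_one_le_mul₀ (by rw [sub_pos, div_lt_one (by linarith)]; linarith)]
        have h7 : 0 < 1 / (p : ℝ) := by positivity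
        have h8 : 1 / (p : ℝ) ≤ 1 / 2 := one_div_le_one_div_of_le (by norm_num) hp2
        nlinarith
      exact h6.trans (Real.add_one_le_exp _)
  have hx3r : (3 : ℝ) ≤ x := by exact_mod_cast hx3
  have hexp0 : 0 < Real.exp (2 * C) := Real.exp_pos _
  have hL0 : 0 < Real.log x := by linarith
  have h6 : ∑ p ∈ pz x, 1 / (p : ℝ) ≤ Real.log (Real.log x) + C := by
    have := (abs_le.1 h4).2
    unfold pz
    linarith
  calc (Vz x)⁻¹ ≤ Real.exp (2 * ∑ p ∈ pz x, 1 / (p : ℝ)) := h5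
    _ ≤ Real.exp (2 * (Real.log (Real.log x) + C)) := Real.exp_le_exp.2 (by linarith)
    _ = Real.log x ^ 2 * Real.exp (2 * C) := by
        rw [mul_add, Real.exp_add]
        congr 1
        rw [two_mul, Real.exp_add, Real.exp_log hL0]
        ring
    _ ≤ Real.log x ^ 2 * Real.log x := mul_le_mul_of_nonneg_left (by linarith) (by positivity)
    _ = _ := by ring

/-- the density of the residues modulo `x!` at which `F` is coprime to `x!` -/
lemma phi_fact (F : ℤ[X]) (d x : ℕ) (hd : 1 ≤ d) (hF : F.natDegree ≤ d) (hrho : ∀ p : ℕ, p.Prime → rho F 0 p < p)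
    (V : ℝ) (hV : (Vz x)⁻¹ ≤ V) : (x.factorial : ℝ) ≤ (2 * d) ^ (2 * d) * V ^ (2 * d) * phiF F x.factorial := by
  have h1 := V_low F 0 x d hd hF (fun p hp => hrho p (mem_pz.1 hp).2)
  have h2 := phiF_eq F x.factorial (Nat.factorial_pos x)
  rw [fact_pf] at h2
  rw [h2]
  have hV0 := Vz_pos x
  have hVi : 0 < (Vz x)⁻¹ := inv_pos.2 hV0
  have hd0 : (0 : ℝ) < d := by exact_mod_cast hd
  have h3 : 1 ≤ Vz x * V := by
    have := mul_le_mul_of_nonneg_left hV hV0.le
    rwa [mul_inv_cancel₀ hV0.ne'] at this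
  have h4 : 1 ≤ (2 * (d : ℝ)) ^ (2 * d) * V ^ (2 * d) * ((1 / (2 * (d : ℝ))) ^ (2 * d) * Vz x ^ (2 * d)) := by
    have e1 : (2 * (d : ℝ)) ^ (2 * d) * V ^ (2 * d) * ((1 / (2 * (d : ℝ))) ^ (2 * d) * Vz x ^ (2 * d)) = (Vz x * V) ^ (2 * d) := by
      rw [one_div_pow, mul_pow (Vz x) V]
      have : (2 * (d : ℝ)) ^ (2 * d) ≠ 0 := by positivity
      field_simp
    rw [e1]
    exact one_le_pow₀ h3
  have hVV : 0 ≤ V := hVi.le.trans hV
  have hx0 : (0 : ℝ) ≤ x.factorial := Nat.cast_nonneg _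
  calc (x.factorial : ℝ) = x.factorial * 1 := (mul_one _).symm
    _ ≤ x.factorial * ((2 * (d : ℝ)) ^ (2 * d) * V ^ (2 * d) * ∏ p ∈ pz x, (1 - (rho F 0 p : ℝ) / p)) := by
        apply mul_le_mul_of_nonneg_left _ hx0
        refine h4.trans ?_
        exact mul_le_mul_of_nonneg_left h1 (by positivity)
    _ = _ := by ring

end Pool.Agent.Y868.TH
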