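import Pool.Agent.Y868.TH.Q2

/-! The sieve model in residue classes. -/

set_option autoImplicit false

namespace Pool.Agent.Y868.TH

open Finset Filter
open Polynomial (X C)
open scoped Polynomial
open Pool.Agent.H373R2.T7 (pz Vz lamz mem_pz Vz_pos Vz_inv_le Vz_inv_small ev_L')
open Pool.Agent.TH204.WR (rho rho_le rho_card V_low hh vN hh_nonneg)
open Pool.Agent.Y868.TC (dvd_mod model_gen hh_le)

/-- the polynomial on the class of `r` modulo `q` -/
noncomputable def cls (F : ℤ[X]) (q r : ℕ) : ℤ[X] := F.comp (C ((r : ℤ) - q) + C (q : ℤ) * X)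

lemma cls_eval (F : ℤ[X]) (q r : ℕ) (t : ℤ) : (cls F q r).eval t = F.eval ((r : ℤ) - q + q * t) := by
  unfold cls
  simp [Polynomial.eval_comp]

lemma cls_deg (F : ℤ[X]) (q r : ℕ) : (cls F q r).natDegree ≤ F.natDegree := by
  unfold cls
  refine Polynomial.natDegree_comp_le.trans ?_
  have h1 : (C ((r : ℤ) - q) + C (q : ℤ) * X : ℤ[X]).natDegree ≤ 1 := by
    refine (Polynomial.natDegree_add_le _ _).trans (max_le ?_ ?_)
    · rw [Polynomial.natDegree_C]; exact Nat.zero_le _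
    · exact (Polynomial.natDegree_C_mul_le _ _).trans Polynomial.natDegree_X_le
  calc F.natDegree * (C ((r : ℤ) - q) + C (q : ℤ) * X : ℤ[X]).natDegree ≤ F.natDegree * 1 := Nat.mul_le_mul_left _ h1
    _ = _ := mul_one _

lemma rho_cls_dvd (F : ℤ[X]) (q r p : ℕ) (hpq : p ∣ q) :
    rho (cls F q r) 0 p = if (p : ℤ) ∣ F.eval (r : ℤ) then p else 0 := by
  have h1 : ∀ a : ℕ, ((p : ℤ) ∣ (cls F q r).eval (a : ℤ) + 0 ↔ (p : ℤ) ∣ F.eval (r : ℤ)) := by
    intro a
    rw [add_zero, cls_eval]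
    have h2 : ((r : ℤ) - q + q * a - r) ∣ F.eval ((r : ℤ) - q + q * a) - F.eval (r : ℤ) := Polynomial.sub_dvd_eval_sub _ _ _
    have h3 : (p : ℤ) ∣ ((r : ℤ) - q + q * a - r) := by
      have h4 : (p : ℤ) ∣ (q : ℤ) := by exact_mod_cast hpq
      have e1 : ((r : ℤ) - q + q * a - r) = q * (a - 1) := by ring
      rw [e1]
      exact h4.mul_right _
    have h5 := h3.trans h2
    exact (Int.dvd_iff_dvd_of_dvd_sub h5)
  unfold rho
  split_ifs with h
  · rw [filter_true_of_mem (fun a _ => (h1 a).2 h), card_range]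
  · rw [filter_false_of_mem (fun a _ => fun h2 => h ((h1 a).1 h2)), card_empty]

lemma rho_cls_cop (F : ℤ[X]) (q r p : ℕ) (hp : p.Prime) (hpq : ¬ p ∣ q) : rho (cls F q r) 0 p = rho F 0 p := by
  have : Fact p.Prime := ⟨hp⟩
  rw [rho_card, rho_card]
  have hq0 : (q : ZMod p) ≠ 0 := by
    rw [Ne, ZMod.natCast_eq_zero_iff]
    exact hpq
  have key : ∀ x : ZMod p, ((cls F q r).map (Int.castRingHom (ZMod p))).eval x =
      (F.map (Int.castRingHom (ZMod p))).eval ((r : ZMod p) - q + q * x) := by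
    intro x
    unfold cls
    rw [Polynomial.map_comp, Polynomial.eval_comp]
    simp
  refine card_nbij' (fun x => (r : ZMod p) - q + q * x) (fun y => (q : ZMod p)⁻¹ * (y - ((r : ZMod p) - q))) ?_ ?_ ?_ ?_
  · intro x hx
    rw [mem_coe, mem_filter] at hx ⊢
    refine ⟨mem_univ _, ?_⟩
    rw [← key]
    exact hx.2
  · intro y hy
    rw [mem_coe, mem_filter] at hy ⊢
    refine ⟨mem_univ _, ?_⟩
    rw [key]
    have e1 : (r : ZMod p) - q + q * ((q : ZMod p)⁻¹ * (y - ((r : ZMod p) - q))) = y := by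
      rw [mul_inv_cancel_left₀ hq0]
      ring
    rw [e1]
    exact hy.2
  · intro x _
    simp only [add_sub_cancel_left]
    rw [inv_mul_cancel_left₀ hq0]
  · intro y _
    simp only
    rw [mul_inv_cancel_left₀ hq0]
    ring

/-- the truncated constants of the classes -/
lemma hh_cls (F : ℤ[X]) (q r z : ℕ) (hq : 1 ≤ q) (hqz : q ≤ z) :
    (phiF F q : ℝ) * hh (cls F q r) 0 z = if Int.gcd (F.eval (r : ℤ)) q = 1 then (q : ℝ) * hh F 0 z else 0 := by
  have hsub : q.primeFactors ⊆ pz z := by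
    intro p hp
    rw [mem_pz]
    exact ⟨(Nat.le_of_mem_primeFactors hp).trans hqz, Nat.prime_of_mem_primeFactors hp⟩
  have hout : ∏ p ∈ pz z \ q.primeFactors, (1 - (rho (cls F q r) 0 p : ℝ) / p) =
      ∏ p ∈ pz z \ q.primeFactors, (1 - (rho F 0 p : ℝ) / p) := by
    refine prod_congr rfl fun p hp => ?_
    rw [Finset.mem_sdiff] at hp
    have hpp := (mem_pz.1 hp.1).2
    rw [rho_cls_cop F q r p hpp]
    intro hd
    exact hp.2 (Nat.mem_primeFactors.2 ⟨hpp, hd, by omega⟩)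
  split_ifs with h
  · rw [cop_iff _ _ hq] at h
    have hin : ∏ p ∈ q.primeFactors, (1 - (rho (cls F q r) 0 p : ℝ) / p) = 1 := by
      apply prod_eq_one
      intro p hp
      rw [rho_cls_dvd F q r p (Nat.dvd_of_mem_primeFactors hp), if_neg (h p hp)]
      simp
    unfold hh
    rw [← prod_sdiff hsub, ← prod_sdiff hsub, hout, hin, phiF_eq F q hq]
    ring
  · rw [cop_iff _ _ hq] at h
    push Not at h
    obtain ⟨p, hp, hd⟩ := h
    have hpp := Nat.prime_of_mem_primeFactors hp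
    have h1 : ∏ p ∈ pz z, (1 - (rho (cls F q r) 0 p : ℝ) / p) = 0 := by
      apply prod_eq_zero (hsub hp)
      rw [rho_cls_dvd F q r p (Nat.dvd_of_mem_primeFactors hp), if_pos hd, div_self (by exact_mod_cast hpp.ne_zero), sub_self]
    unfold hh
    rw [h1]
    ring

/-- the members of a class in a window -/
lemma class_sum (F : ℤ[X]) (q r u n : ℕ) (hq : 1 ≤ q) (hr : r < q) (g : ℤ → ℝ) :
    ∑ m ∈ (Ioc u n).filter (fun m => m % q = r), g (F.eval (m : ℤ)) =
      ∑ t ∈ Ioc ((u + q - r) / q) ((n + q - r) / q), g ((cls F q r).eval (t : ℤ)) := by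
  symm
  have hlt : ∀ a t : ℕ, (a + q - r) / q < t ↔ a + q < q * t + r := by
    intro a t
    rw [Nat.div_lt_iff_lt_mul (by omega : 0 < q)]
    rw [mul_comm q t]
    omega
  have hpos : ∀ a t : ℕ, (a + q - r) / q < t → 1 ≤ t := fun a t h => Nat.lt_of_le_of_lt (Nat.zero_le _) h
  refine sum_bij (fun t _ => q * t + r - q) ?_ ?_ ?_ ?_
  · intro t ht
    rw [mem_Ioc] at ht
    have h1 := (hlt u t).1 ht.1
    have h2 : ¬ (n + q < q * t + r) := fun h => by have := (hlt n t).2 h; omega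
    have h3 := hpos u t ht.1
    rw [mem_filter, mem_Ioc]
    refine ⟨by omega, ?_⟩
    obtain ⟨s, rfl⟩ : ∃ s, t = s + 1 := ⟨t - 1, by omega⟩
    have e1 : q * (s + 1) + r - q = r + q * s := by
      have : q * (s + 1) = q * s + q := by ring
      omega
    rw [e1, Nat.add_mul_mod_self_left, Nat.mod_eq_of_lt hr]
  · intro a ha b hb hab
    rw [mem_Ioc] at ha hb
    have h1 := (hlt u a).1 ha.1
    have h2 := (hlt u b).1 hb.1
    have h3 : q * a = q * b := by omega
    exact Nat.eq_of_mul_eq_mul_left (by omega : 0 < q) h3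
  · intro m hm
    rw [mem_filter, mem_Ioc] at hm
    have h1 := Nat.mod_add_div m q
    rw [hm.2] at h1
    refine ⟨m / q + 1, ?_, ?_⟩
    · rw [mem_Ioc]
      have e1 : q * (m / q + 1) = q * (m / q) + q := by ring
      refine ⟨(hlt u _).2 (by omega), ?_⟩
      by_contra h
      push Not at h
      have := (hlt n _).1 h
      omega
    · have e1 : q * (m / q + 1) = q * (m / q) + q := by ring
      omega
  · intro t ht
    rw [mem_Ioc] at ht
    have h3 := hpos u t ht.1
    have h1 := (hlt u t).1 ht.1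
    congr 1
    rw [cls_eval]
    congr 1
    rw [Nat.cast_sub (by omega)]
    push_cast
    ring

lemma floor_diff (q r u n : ℕ) (hq : 1 ≤ q) (hr : r < q) :
    |((((n + q - r) / q : ℕ) : ℝ) - (((u + q - r) / q : ℕ) : ℝ)) - ((n : ℝ) - u) / q| ≤ 1 := by
  have hq0 : (0 : ℝ) < q := by exact_mod_cast (by omega : 0 < q)
  have h1 : ∀ a : ℕ, (((a + q - r) / q : ℕ) : ℝ) ≤ ((a : ℝ) + q - r) / q ∧ ((a : ℝ) + q - r) / q - 1 ≤ (((a + q - r) / q : ℕ) : ℝ) := by
    intro a
    have h2 : (((a + q - r : ℕ)) : ℝ) = (a : ℝ) + q - r := by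
      rw [Nat.cast_sub (by omega)]
      push_cast
      ring
    constructor
    · rw [← h2]
      exact Nat.cast_div_le
    · rw [← h2]
      have h3 := Nat.lt_div_mul_add (a := a + q - r) (b := q) (by omega : 0 < q)
      have h4 : (((a + q - r : ℕ)) : ℝ) ≤ (((a + q - r) / q : ℕ) : ℝ) * q + q := by
        have : a + q - r ≤ (a + q - r) / q * q + q := h3.le
        exact_mod_cast this
      rw [sub_le_iff_le_add, div_le_iff₀ hq0]
      linarith
  have h2 := h1 n
  have h3 := h1 u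
  have e1 : ((n : ℝ) + q - r) / q - ((u : ℝ) + q - r) / q = ((n : ℝ) - u) / q := by ring
  rw [abs_le]
  constructor <;> linarith

/-- **the model in a residue class** -/
theorem model_class (d U E : ℕ) (hd : 1 ≤ d) : ∃ x0 z0 : ℕ, ∀ x : ℕ, x0 ≤ x → ∀ z : ℕ, z0 ≤ z → 2 ≤ z →
    (z : ℝ) ≤ Real.log x ^ E → ∀ F : ℤ[X], F.natDegree ≤ d → ∀ q r : ℕ, 1 ≤ q → r < q →
    ∀ u n : ℕ, u ≤ n → n ≤ x →
    |∑ m ∈ (Ioc u n).filter (fun m => m % q = r), lamz z (vN F 0 m) - (((n : ℝ) - u) / q) * hh (cls F q r) 0 z| ≤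
      x / Real.log x ^ U := by
  obtain ⟨x1, z1, h1⟩ := model_gen d (U + 1) E hd
  obtain ⟨x2, h2⟩ := Vz_inv_small E
  obtain ⟨x3, h3⟩ := ev_L' 4
  obtain ⟨x4, h4⟩ := Pool.Agent.Y868.TA.evt_polylog (U + 2)
  refine ⟨max (max x1 x2) (max (max x3 x4) 1), z1, fun x hx z hz1 hz2 hzE F hF q r hq hr u n hun hnx => ?_⟩
  have a2 := h2 x (le_trans (le_trans (le_max_right _ _) (le_max_left _ _)) hx) z (by omega) hzE
  have a3 := h3 x (le_trans (le_trans (le_trans (le_max_left _ _) (le_max_left _ _)) (le_max_right _ _)) hx)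
  have a4 := h4 x (le_trans (le_trans (le_trans (le_max_right _ _) (le_max_left _ _)) (le_max_right _ _)) hx)
  have hx1 : 1 ≤ x := le_trans (le_trans (le_max_right _ _) (le_max_right _ _)) hx
  have hxr : (1 : ℝ) ≤ x := by exact_mod_cast hx1
  have hLm : Real.log x ≤ Real.log ((x + 1 : ℕ) : ℝ) := by
    apply Real.log_le_log (by linarith)
    push_cast
    linarith
  have a1 := h1 (x + 1) (le_trans (le_trans (le_trans (le_max_left _ _) (le_max_left _ _)) hx) (Nat.le_succ x)) z hz1 hz2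
    (hzE.trans (pow_le_pow_left₀ (by linarith) hLm E)) (cls F q r) 0 ((cls_deg F q r).trans hF)
    ((u + q - r) / q) ((n + q - r) / q) (Nat.div_le_div_right (by omega)) (by
      have h5 : (n + q - r) / q ≤ (n + q) / q := Nat.div_le_div_right (by omega)
      rw [Nat.add_div_right _ (by omega : 0 < q)] at h5
      have h6 : n / q ≤ n := Nat.div_le_self n q
      omega)
  set L := Real.log x with hL
  have hL0 : 0 < L := by linarith
  have hL1 : 1 ≤ L := by linarith
  have hLp : ∀ n : ℕ, 0 < L ^ n := fun n => by positivity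
  have h5 : ∑ m ∈ (Ioc u n).filter (fun m => m % q = r), lamz z (vN F 0 m) =
      ∑ t ∈ Ioc ((u + q - r) / q) ((n + q - r) / q), lamz z (vN (cls F q r) 0 t) := by
    unfold vN
    exact class_sum F q r u n hq hr (fun y => lamz z (y + 0).natAbs)
  rw [h5]
  have hh0 := hh_nonneg (cls F q r) 0 z (by omega)
  have hhL := (hh_le (cls F q r) 0 z).trans a2
  have hfl := floor_diff q r u n hq hr
  have h6 : |((((n + q - r) / q : ℕ) : ℝ) - (((u + q - r) / q : ℕ) : ℝ)) * hh (cls F q r) 0 z - (((n : ℝ) - u) / q) * hh (cls F q r) 0 z| ≤ L := by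
    rw [← sub_mul, abs_mul, abs_of_nonneg hh0]
    calc |((((n + q - r) / q : ℕ) : ℝ) - (((u + q - r) / q : ℕ) : ℝ)) - ((n : ℝ) - u) / q| * hh (cls F q r) 0 z ≤ 1 * L :=
          mul_le_mul hfl hhL hh0 zero_le_one
      _ = L := one_mul L
  have h7 : ((x + 1 : ℕ) : ℝ) / Real.log ((x + 1 : ℕ) : ℝ) ^ (U + 1) ≤ (1 / 2) * (x / L ^ U) := by
    calc ((x + 1 : ℕ) : ℝ) / Real.log ((x + 1 : ℕ) : ℝ) ^ (U + 1) ≤ (2 * x) / L ^ (U + 1) := by
          apply div_le_div₀ (by positivity) _ (hLp _) (pow_le_pow_left₀ hL0.le hLm _)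
          push_cast
          linarith
      _ = (2 / L) * (x / L ^ U) := by
          rw [pow_succ]
          field_simp
      _ ≤ (1 / 2) * (x / L ^ U) := by
          apply mul_le_mul_of_nonneg_right _ (by positivity)
          rw [div_le_div_iff₀ hL0 (by norm_num)]
          linarith
  have h8 : L ≤ (1 / 2) * (x / L ^ U) := by
    have h9 : L ^ (U + 2) = L * L * L ^ U := by ring
    rw [h9] at a4
    have h10 : L * L ≤ x / L ^ U := by
      rw [le_div_iff₀ (hLp U)]
      exact a4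
    nlinarith
  have h9 := abs_sub_le (∑ t ∈ Ioc ((u + q - r) / q) ((n + q - r) / q), lamz z (vN (cls F q r) 0 t))
    (((((n + q - r) / q : ℕ) : ℝ) - (((u + q - r) / q : ℕ) : ℝ)) * hh (cls F q r) 0 z) ((((n : ℝ) - u) / q) * hh (cls F q r) 0 z)
  linarith

end Pool.Agent.Y868.TH
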