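import Pool.Agent.Y868.TH.Q3
import Pool.Agent.Y868.TC.S3

/-! Prime values in residue classes to small moduli. -/

set_option autoImplicit false

namespace Pool.Agent.Y868.TH

open Finset Filter
open Polynomial (X C)
open scoped Polynomial
open Pool.Agent.H373R2.T7 (pz Vz lamz mem_pz Vz_pos Vz_inv_le Vz_inv_small ev_L')
open Pool.Agent.TH204.WR (rho rho_le rho_card V_low hh vN hh_nonneg)
open Pool.Agent.Y868.TA
open Pool.Agent.Y868.TC

lemma hh_cls_zero (F : ℤ[X]) (q r z : ℕ) (hq : 1 ≤ q) (hqz : q ≤ z) (h : Int.gcd (F.eval (r : ℤ)) q ≠ 1) :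
    hh (cls F q r) 0 z = 0 := by
  rw [Ne, cop_iff _ _ hq] at h
  push Not at h
  obtain ⟨p, hp, hd⟩ := h
  have hpp := Nat.prime_of_mem_primeFactors hp
  have h1 : ∏ p ∈ pz z, (1 - (rho (cls F q r) 0 p : ℝ) / p) = 0 := by
    apply prod_eq_zero (mem_pz.2 ⟨(Nat.le_of_mem_primeFactors hp).trans hqz, hpp⟩)
    rw [rho_cls_dvd F q r p (Nat.dvd_of_mem_primeFactors hp), if_pos hd, div_self (by exact_mod_cast hpp.ne_zero), sub_self]
  unfold hh
  rw [h1, mul_zero]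

/-- the density of a class -/
noncomputable def dn (F : ℤ[X]) (q r : ℕ) : ℝ := if Int.gcd (F.eval (r : ℤ)) q = 1 then 1 / (phiF F q : ℝ) else 0

lemma phiF_pos (F : ℤ[X]) (q r : ℕ) (hr : r < q) (h : Int.gcd (F.eval (r : ℤ)) q = 1) : 1 ≤ phiF F q := by
  unfold phiF
  exact card_pos.2 ⟨r, mem_filter.2 ⟨mem_range.2 hr, h⟩⟩

lemma dn_bound (F : ℤ[X]) (q r : ℕ) (hr : r < q) : 0 ≤ dn F q r ∧ dn F q r ≤ 1 := by
  unfold dn
  split_ifs with h
  · have h1 : (1 : ℝ) ≤ phiF F q := by exact_mod_cast phiF_pos F q r hr h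
    exact ⟨by positivity, by rw [div_le_one (by linarith)]; exact h1⟩
  · exact ⟨le_rfl, zero_le_one⟩

lemma hh_dn (F : ℤ[X]) (q r z : ℕ) (hq : 1 ≤ q) (hr : r < q) (hqz : q ≤ z) :
    hh (cls F q r) 0 z = q * dn F q r * hh F 0 z := by
  unfold dn
  split_ifs with h
  · have h1 := hh_cls F q r z hq hqz
    rw [if_pos h] at h1
    have h2 : (0 : ℝ) < phiF F q := by exact_mod_cast phiF_pos F q r hr h
    field_simp
    rw [mul_comm]
    linarith
  · rw [hh_cls_zero F q r z hq hqz h]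
    ring

/-- **Equidistribution of the prime values to small moduli.** -/
theorem sw (k d U A K : ℕ) (hk : 1 ≤ k) (hd : 2 ≤ d) : ∃ C0 x0 : ℕ, ∀ x : ℕ, x0 ≤ x →
    ∀ D B : ℕ, Real.log x ^ C0 ≤ D → (D : ℝ) ≤ (x : ℝ) ^ K →
    (D : ℝ) * x ≤ B * Real.log x ^ K → (B : ℝ) ≤ D * x * Real.log x ^ K →
    ∀ P : Fin k → ℤ[X], (∀ i, (P i).natDegree + 1 ≤ d) →
    (∀ i, ∀ m ∈ Icc 1 x, ((|(P i).eval (m : ℤ)| : ℤ) : ℝ) ≤ B * Real.log x ^ K) →
    ∀ c : Fin k → ℤ, (∀ i, c i ≠ 0) → (∀ i, ((|c i| : ℤ) : ℝ) ≤ B * x * Real.log x ^ K) →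
    ∃ Bad ⊆ bx D B k, (#Bad : ℝ) ≤ ((D : ℝ) * B) ^ k / Real.log x ^ U ∧
      ∀ e ∈ bx D B k, e ∉ Bad → ∀ u v : ℕ, u < v → v ≤ x → (∀ i, ∀ m ∈ Ioc u v, 3 ≤ (mem1 P c e i).eval (m : ℤ)) →
        ∀ q : ℕ, 1 ≤ q → (q : ℝ) ≤ Real.log x ^ A → ∀ r < q,
          |(cnt (mem1 P c e) ((Ioc u v).filter (fun m => m % q = r)) : ℝ) -
            dn (∏ i, mem1 P c e i) q r * cnt (mem1 P c e) (Ioc u v)| ≤ x / Real.log x ^ U := by
  classical
  obtain ⟨U', hU'⟩ : ∃ U', U' = U + 2 * A + 2 := ⟨_, rfl⟩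
  obtain ⟨C0, E1, hw⟩ := sys_windows k U' K hk
  obtain ⟨E, hE⟩ : ∃ E, E = E1 + A + 2 := ⟨_, rfl⟩
  obtain ⟨x1, h1⟩ := hw E
  have hkd1 : 1 ≤ k * d := Nat.one_le_iff_ne_zero.2 (Nat.mul_ne_zero (by omega) (by omega))
  obtain ⟨x2, z2, h2⟩ := model_class (k * d) (U + k + 1) E hkd1
  obtain ⟨x5, z5, h5⟩ := model_gen (k * d) (U + k + 1) E hkd1
  obtain ⟨x3, h3⟩ := Vz_inv_small E
  obtain ⟨x4, h4⟩ := ev_L' (4 * (1 + (k : ℝ) * d) + z2 + z5 + 4)
  refine ⟨C0, max (max x1 x2) (max (max x3 x4) (max x5 1)), fun x hx D B hD1 hD2 hDB hBD P hP hPB c hc0 hc => ?_⟩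
  have hx1' : x1 ≤ x := le_trans (le_trans (le_max_left _ _) (le_max_left _ _)) hx
  have hx2' : x2 ≤ x := le_trans (le_trans (le_max_right _ _) (le_max_left _ _)) hx
  have hx3' : x3 ≤ x := le_trans (le_trans (le_trans (le_max_left _ _) (le_max_left _ _)) (le_max_right _ _)) hx
  have hx4' : x4 ≤ x := le_trans (le_trans (le_trans (le_max_right _ _) (le_max_left _ _)) (le_max_right _ _)) hx
  have hx5' : x5 ≤ x := le_trans (le_trans (le_trans (le_max_left _ _) (le_max_right _ _)) (le_max_right _ _)) hx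
  have hx1 : 1 ≤ x := le_trans (le_trans (le_trans (le_max_right _ _) (le_max_right _ _)) (le_max_right _ _)) hx
  have b4 := h4 x hx4'
  set L := Real.log x with hL
  have hkd0 : (0 : ℝ) ≤ (k : ℝ) * d := by positivity
  have hz20 : (0 : ℝ) ≤ z2 := Nat.cast_nonneg _
  have hz50 : (0 : ℝ) ≤ z5 := Nat.cast_nonneg _
  have hL4 : 4 ≤ L := by linarith
  have hL1 : 1 ≤ L := by linarith
  have hL0 : 0 < L := by linarith
  have hLp : ∀ n : ℕ, 0 < L ^ n := fun n => by positivity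
  have hLp1 : ∀ n : ℕ, 1 ≤ L ^ n := fun n => one_le_pow₀ hL1
  have hLL : ∀ {i j : ℕ}, i ≤ j → L ^ i ≤ L ^ j := fun h => pow_le_pow_right₀ hL1 h
  have hx0 : (0 : ℝ) < x := by exact_mod_cast hx1
  -- the cutoff
  obtain ⟨z, hz⟩ : ∃ z : ℕ, z = ⌈L ^ (E1 + A + 1)⌉₊ := ⟨_, rfl⟩
  have hzA : L ^ (E1 + A + 1) ≤ z := by rw [hz]; exact Nat.le_ceil _
  have hzL : L ≤ z := by
    have h6 : L ^ 1 ≤ L ^ (E1 + A + 1) := hLL (by omega)
    rw [pow_one] at h6
    linarith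
  have hzE : (z : ℝ) ≤ L ^ E := by
    have h6 := (Nat.ceil_lt_add_one (hLp (E1 + A + 1)).le).le
    rw [← hz] at h6
    have h8 : L ^ E = L ^ (E1 + A + 1) * L := by rw [hE, pow_succ]
    rw [h8]
    have h9 := hLp1 (E1 + A + 1)
    nlinarith
  have hz2 : 2 ≤ z := by
    have : (2 : ℝ) ≤ z := by linarith
    exact_mod_cast this
  have hzz2 : z2 ≤ z := by
    have : (z2 : ℝ) ≤ z := by linarith
    exact_mod_cast this
  have hzz5 : z5 ≤ z := by
    have : (z5 : ℝ) ≤ z := by linarith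
    exact_mod_cast this
  have hV := h3 x hx3' z (by omega) hzE
  have hV0 : 0 < (Vz z)⁻¹ := inv_pos.2 (Vz_pos z)
  -- the exceptional sets
  have hB := fun q r : ℕ => h1 x hx1' z ((hLL (by omega)).trans hzA) hzE D B hD1 hD2 hDB hBD
    (fun i m => (P i).eval (m : ℤ)) hPB c hc0 hc (fun m => if m % q = r then 1 else 0) (fun m => by
      split_ifs <;> simp)
  choose Bd hBd1 hBd2 hBd3 using hB
  obtain ⟨Qa, hQa⟩ : ∃ Qa : ℕ, Qa = ⌊L ^ A⌋₊ := ⟨_, rfl⟩
  have hQa1 : (Qa : ℝ) ≤ L ^ A := by rw [hQa]; exact Nat.floor_le (hLp A).le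
  have hQa2 : 1 ≤ Qa := by rw [hQa]; exact Nat.le_floor (by push_cast; exact hLp1 A)
  refine ⟨(Icc 1 Qa ×ˢ range Qa).biUnion (fun s => Bd s.1 s.2), ?_, ?_, fun e he hbad u v huv hvx h3v q hq hqA r hr => ?_⟩
  · intro e he
    rw [mem_biUnion] at he
    obtain ⟨s, _, hs⟩ := he
    exact hBd1 _ _ hs
  · calc (#((Icc 1 Qa ×ˢ range Qa).biUnion (fun s => Bd s.1 s.2)) : ℝ) ≤ ∑ s ∈ Icc 1 Qa ×ˢ range Qa, (#(Bd s.1 s.2) : ℝ) := by
          exact_mod_cast card_biUnion_le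
      _ ≤ ∑ _s ∈ Icc 1 Qa ×ˢ range Qa, ((D : ℝ) * B) ^ k / L ^ U' := sum_le_sum fun s _ => hBd2 _ _
      _ = ((Qa : ℝ) * Qa) * (((D : ℝ) * B) ^ k / L ^ U') := by
          rw [sum_const, card_product, Nat.card_Icc, card_range, Nat.add_sub_cancel, nsmul_eq_mul]
          push_cast
          ring
      _ ≤ (L ^ A * L ^ A) * (((D : ℝ) * B) ^ k / L ^ U') := by
          apply mul_le_mul_of_nonneg_right _ (by positivity)
          exact mul_le_mul hQa1 hQa1 (Nat.cast_nonneg _) (hLp A).le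
      _ = (1 / L ^ 2) * (((D : ℝ) * B) ^ k / L ^ U) := by
          rw [hU', pow_add, pow_add, two_mul, pow_add]
          have := (hLp A).ne'
          field_simp
      _ ≤ 1 * (((D : ℝ) * B) ^ k / L ^ U) := by
          apply mul_le_mul_of_nonneg_right _ (by positivity)
          rw [div_le_one (hLp 2)]
          exact hLp1 2
      _ = _ := one_mul _
  -- the bounds outside of the exceptional sets
  have hqQ : q ≤ Qa := by rw [hQa]; exact Nat.le_floor hqA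
  have hnot : ∀ q' r' : ℕ, 1 ≤ q' → q' ≤ Qa → r' < q' → e ∉ Bd q' r' := by
    intro q' r' h6 h7 h8 h9
    apply hbad
    rw [mem_biUnion]
    exact ⟨(q', r'), mem_product.2 ⟨mem_Icc.2 ⟨h6, h7⟩, mem_range.2 (by omega)⟩, h9⟩
  have hqz : q ≤ z := by
    have h6 : (q : ℝ) ≤ z := by
      refine hqA.trans (le_trans ?_ hzA)
      exact hLL (by omega)
    exact_mod_cast h6
  set F : ℤ[X] := ∏ i, mem1 P c e i with hF
  have hdeg : F.natDegree ≤ k * d := by
    rw [hF]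
    refine (Polynomial.natDegree_prod_le _ _).trans ?_
    calc ∑ i, (mem1 P c e i).natDegree ≤ ∑ _i : Fin k, d := sum_le_sum fun i _ => mem1_deg hd P hP c e i
      _ = k * d := by rw [sum_const, card_univ, Fintype.card_fin, smul_eq_mul]
  set t := dn F q r with ht
  have ht01 := dn_bound F q r hr
  rw [← ht] at ht01
  have hfv : ∀ i m, fv (fun i m => (P i).eval (m : ℤ)) c e i m = ((mem1 P c e i).eval (m : ℤ)).toNat := by
    intro i m
    rw [mem1_eval]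
    rfl
  have hUk : (L ^ (k - 1) : ℝ) * (2 * (x / L ^ (U + k + 1))) ≤ 2 * (x / L ^ (U + 2)) := by
    have h6 : L ^ (U + k + 1) = L ^ (U + 2) * L ^ (k - 1) := by
      rw [← pow_add]
      congr 1
      omega
    rw [h6]
    have := (hLp (k - 1)).ne'
    have e1 : (L ^ (k - 1) : ℝ) * (2 * (x / (L ^ (U + 2) * L ^ (k - 1)))) = 2 * (x / L ^ (U + 2)) := by
      field_simp
    rw [e1]
  have hUU : (x : ℝ) / L ^ U' ≤ x / L ^ (U + 2) := div_le_div_of_nonneg_left hx0.le (hLp _) (hLL (by omega))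
  -- the sums with the logarithms
  have hsum : ∀ n, u ≤ n → n ≤ v → |∑ m ∈ Ioc u n, ((if m % q = r then (1 : ℝ) else 0) - t) *
      ∏ i, th ((mem1 P c e i).eval (m : ℤ)).toNat| ≤ 4 * (x / L ^ (U + 2)) := by
    intro n hun hnv
    have hpos : ∀ i, ∀ m ∈ Ioc u n, 0 ≤ (mem1 P c e i).eval (m : ℤ) := by
      intro i m hm
      have := h3v i m (by rw [mem_Ioc] at hm ⊢; omega)
      omega
    have hmod : ∀ m ∈ Ioc u n, ∏ i, lamz z (fv (fun i m => (P i).eval (m : ℤ)) c e i m) =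
        (Vz z)⁻¹ ^ (k - 1) * lamz z (vN F 0 m) := by
      intro m hm
      rw [lamz_prod z hk]
      congr 2
      unfold vN
      rw [add_zero, hF, Polynomial.eval_prod, ← Int.natAbsHom_apply, map_prod]
      refine prod_congr rfl fun i _ => ?_
      rw [hfv, Int.natAbsHom_apply]
      have := hpos i m hm
      omega
    have g1 := hBd3 q r e he (hnot q r hq hqQ hr) u n hun (hnv.trans hvx)
    have g2 := hBd3 1 0 e he (hnot 1 0 le_rfl hQa2 (by omega)) u n hun (hnv.trans hvx)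
    have g3 := h2 x hx2' z hzz2 hz2 hzE F hdeg q r hq hr u n hun (hnv.trans hvx)
    have g4 := h5 x hx5' z hzz5 hz2 hzE F 0 hdeg u n hun (hnv.trans hvx)
    rw [hh_dn F q r z hq hr hqz, ← ht] at g3
    have hq0 : (q : ℝ) ≠ 0 := by exact_mod_cast (by omega : q ≠ 0)
    have e0 : (((n : ℝ) - u) / q) * (q * t * hh F 0 z) = t * (((n : ℝ) - u) * hh F 0 z) := by
      field_simp
    rw [e0] at g3
    have e1 : ∑ m ∈ Ioc u n, ((if m % q = r then (1 : ℝ) else 0) - t) * ∏ i, th ((mem1 P c e i).eval (m : ℤ)).toNat =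
        ∑ m ∈ Ioc u n, (if m % q = r then (1 : ℝ) else 0) * (∏ i, th (fv (fun i m => (P i).eval (m : ℤ)) c e i m) -
          ∏ i, lamz z (fv (fun i m => (P i).eval (m : ℤ)) c e i m)) -
        t * ∑ m ∈ Ioc u n, (if m % 1 = 0 then (1 : ℝ) else 0) * (∏ i, th (fv (fun i m => (P i).eval (m : ℤ)) c e i m) -
          ∏ i, lamz z (fv (fun i m => (P i).eval (m : ℤ)) c e i m)) +
        (Vz z)⁻¹ ^ (k - 1) * (∑ m ∈ (Ioc u n).filter (fun m => m % q = r), lamz z (vN F 0 m) - t * (((n : ℝ) - u) * hh F 0 z)) -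
        t * ((Vz z)⁻¹ ^ (k - 1) * (∑ m ∈ Ioc u n, lamz z (vN F 0 m) - ((n : ℝ) - u) * hh F 0 z)) := by
      have e2 : (Vz z)⁻¹ ^ (k - 1) * ∑ m ∈ (Ioc u n).filter (fun m => m % q = r), lamz z (vN F 0 m) =
          ∑ m ∈ Ioc u n, (if m % q = r then (1 : ℝ) else 0) * ∏ i, lamz z (fv (fun i m => (P i).eval (m : ℤ)) c e i m) := by
        rw [sum_filter, mul_sum]
        refine sum_congr rfl fun m hm => ?_
        rw [hmod m hm]
        split_ifs <;> ring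
      have e3 : (Vz z)⁻¹ ^ (k - 1) * ∑ m ∈ Ioc u n, lamz z (vN F 0 m) =
          ∑ m ∈ Ioc u n, ∏ i, lamz z (fv (fun i m => (P i).eval (m : ℤ)) c e i m) := by
        rw [mul_sum]
        exact sum_congr rfl fun m hm => (hmod m hm).symm
      rw [mul_sub, e2, mul_sub, e3]
      simp only [hfv, Nat.mod_one, if_true, one_mul, sub_mul, mul_sub, sum_sub_distrib, mul_sum]
      ring
    rw [e1]
    have hV1 : (Vz z)⁻¹ ^ (k - 1) ≤ L ^ (k - 1) := pow_le_pow_left₀ hV0.le hV _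
    have hVn : 0 ≤ (Vz z)⁻¹ ^ (k - 1) := (pow_pos hV0 _).le
    have hxx : 0 ≤ (x : ℝ) / L ^ (U + 2) := by positivity
    have f2 : |t * ∑ m ∈ Ioc u n, (if m % 1 = 0 then (1 : ℝ) else 0) * (∏ i, th (fv (fun i m => (P i).eval (m : ℤ)) c e i m) -
          ∏ i, lamz z (fv (fun i m => (P i).eval (m : ℤ)) c e i m))| ≤ x / L ^ (U + 2) := by
      rw [abs_mul, abs_of_nonneg ht01.1]
      calc _ ≤ 1 * (x / L ^ U') := mul_le_mul ht01.2 g2 (abs_nonneg _) zero_le_one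
        _ ≤ _ := by rw [one_mul]; exact hUU
    have f3 : |(Vz z)⁻¹ ^ (k - 1) * (∑ m ∈ (Ioc u n).filter (fun m => m % q = r), lamz z (vN F 0 m) - t * (((n : ℝ) - u) * hh F 0 z))| ≤
        L ^ (k - 1) * (x / L ^ (U + k + 1)) := by
      rw [abs_mul, abs_of_nonneg hVn]
      exact mul_le_mul hV1 g3 (abs_nonneg _) (hLp _).le
    have f4 : |t * ((Vz z)⁻¹ ^ (k - 1) * (∑ m ∈ Ioc u n, lamz z (vN F 0 m) - ((n : ℝ) - u) * hh F 0 z))| ≤
        L ^ (k - 1) * (x / L ^ (U + k + 1)) := by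
      rw [abs_mul, abs_of_nonneg ht01.1, abs_mul, abs_of_nonneg hVn]
      calc _ ≤ 1 * (L ^ (k - 1) * (x / L ^ (U + k + 1))) := by
            apply mul_le_mul ht01.2 _ (by positivity) zero_le_one
            exact mul_le_mul hV1 g4 (abs_nonneg _) (hLp _).le
        _ = _ := one_mul _
    refine (abs_sub _ _).trans ?_
    have f5 := abs_add_le (∑ m ∈ Ioc u n, (if m % q = r then (1 : ℝ) else 0) * (∏ i, th (fv (fun i m => (P i).eval (m : ℤ)) c e i m) -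
          ∏ i, lamz z (fv (fun i m => (P i).eval (m : ℤ)) c e i m)) -
        t * ∑ m ∈ Ioc u n, (if m % 1 = 0 then (1 : ℝ) else 0) * (∏ i, th (fv (fun i m => (P i).eval (m : ℤ)) c e i m) -
          ∏ i, lamz z (fv (fun i m => (P i).eval (m : ℤ)) c e i m)))
        ((Vz z)⁻¹ ^ (k - 1) * (∑ m ∈ (Ioc u n).filter (fun m => m % q = r), lamz z (vN F 0 m) - t * (((n : ℝ) - u) * hh F 0 z)))
    have f6 := abs_sub (∑ m ∈ Ioc u n, (if m % q = r then (1 : ℝ) else 0) * (∏ i, th (fv (fun i m => (P i).eval (m : ℤ)) c e i m) -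
          ∏ i, lamz z (fv (fun i m => (P i).eval (m : ℤ)) c e i m)))
        (t * ∑ m ∈ Ioc u n, (if m % 1 = 0 then (1 : ℝ) else 0) * (∏ i, th (fv (fun i m => (P i).eval (m : ℤ)) c e i m) -
          ∏ i, lamz z (fv (fun i m => (P i).eval (m : ℤ)) c e i m)))
    have f7 := g1.trans hUU
    linarith
  -- partial summation
  have g1 := abel_tv (lw (mem1 P c e)) (fun m => ((if m % q = r then (1 : ℝ) else 0) - t) *
      ∏ i, th ((mem1 P c e i).eval (m : ℤ)).toNat) u v huv (4 * (x / L ^ (U + 2))) (k * d)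
    (lw_abs _ v (fun i => h3v i v (mem_Ioc.2 ⟨huv, le_rfl⟩))).1 hsum
    (lw_tv _ (fun i => mem1_deg hd P hP c e i) u v h3v)
  have g2 : ∑ m ∈ Ioc u v, lw (mem1 P c e) m * (((if m % q = r then (1 : ℝ) else 0) - t) *
      ∏ i, th ((mem1 P c e i).eval (m : ℤ)).toNat) =
      (cnt (mem1 P c e) ((Ioc u v).filter (fun m => m % q = r)) : ℝ) - t * cnt (mem1 P c e) (Ioc u v) := by
    unfold cnt
    rw [card_filter, card_filter, sum_filter]
    push_cast
    rw [mul_sum, ← sum_sub_distrib]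
    refine sum_congr rfl fun m hm => ?_
    have g3 : lw (mem1 P c e) m * (((if m % q = r then (1 : ℝ) else 0) - t) * ∏ i, th ((mem1 P c e i).eval (m : ℤ)).toNat) =
        ((if m % q = r then (1 : ℝ) else 0) - t) * (lw (mem1 P c e) m * ∏ i, th ((mem1 P c e i).eval (m : ℤ)).toNat) := by ring
    rw [g3, th_lw _ m (fun i => h3v i m hm)]
    split_ifs <;> ring
  rw [← g2]
  refine g1.trans ?_
  have e1 : 4 * ((x : ℝ) / L ^ (U + 2)) * (1 + k * d) = (4 * (1 + k * d) / L ^ 2) * (x / L ^ U) := by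
    rw [pow_add]
    field_simp
  rw [e1]
  calc (4 * (1 + (k : ℝ) * d) / L ^ 2) * (x / L ^ U) ≤ 1 * (x / L ^ U) := by
        apply mul_le_mul_of_nonneg_right _ (by positivity)
        rw [div_le_one (hLp 2)]
        nlinarith
    _ = _ := one_mul _

end Pool.Agent.Y868.TH
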