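import Pool.Agent.Y868.TG.B1
import Pool.Agent.Y868.TH.Q4

/-! The mean square over all classes to all moduli, with the expected main term. -/

set_option autoImplicit false

namespace Pool.Agent.Y868.TH

open Finset
open Polynomial (X C)
open scoped Polynomial
open Pool.Agent.Helper112
open Pool.Agent.H373R2.T7 (pz Vz mem_pz Vz_pos)
open Pool.Agent.TH204.WR (rho)
open Pool.Agent.Y868.TG
open Pool.Agent.Y868.TC (dvd_mod)

/-- the class sums and the reduced fractions -/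
theorem bdh_gen (N Q : ℕ) (α : ℕ → ℂ) :
    ∑ q ∈ Icc 1 Q, ∑ r ∈ range q, ‖∑ n ∈ (Icc 1 N).filter (fun n => n % q = r), α n‖ ^ 2 ≤
      (1 + Real.log Q) * ∑ f ∈ Icc 1 Q, (1 / (f : ℝ)) * Tf N α f := by
  classical
  rcases Nat.eq_zero_or_pos Q with hQ0 | hQ0
  · subst hQ0
    simp
  have hlog : 0 ≤ Real.log Q := Real.log_natCast_nonneg Q
  have h1 : ∀ q ∈ Icc 1 Q, ∑ r ∈ range q, ‖∑ n ∈ (Icc 1 N).filter (fun n => n % q = r), α n‖ ^ 2 =
      ∑ f ∈ Icc 1 Q, (if f ∣ q then (1 / (q : ℝ)) * Tf N α f else 0) := by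
    intro q hq
    rw [mem_Icc] at hq
    have hq0 : (q : ℝ) ≠ 0 := by exact_mod_cast (by omega : q ≠ 0)
    have h2 := parseval_classes q N hq.1 α
    rw [fractions q N hq.1 α] at h2
    have h3 : ∑ r ∈ range q, ‖∑ n ∈ (Icc 1 N).filter (fun n => n % q = r), α n‖ ^ 2 = (1 / (q : ℝ)) * ∑ f ∈ q.divisors, Tf N α f := by
      rw [← h2]
      field_simp
    rw [h3, mul_sum, ← sum_filter]
    apply sum_congr _ (fun _ _ => rfl)
    ext f
    rw [Nat.mem_divisors, mem_filter, mem_Icc]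
    constructor
    · rintro ⟨h4, h5⟩
      have h6 := Nat.le_of_dvd (by omega) h4
      have h7 := Nat.pos_of_dvd_of_pos h4 (by omega : 0 < q)
      exact ⟨⟨h7, h6.trans hq.2⟩, h4⟩
    · rintro ⟨_, h4⟩
      exact ⟨h4, by omega⟩
  rw [sum_congr rfl h1, sum_comm]
  have h2 : ∀ f ∈ Icc 1 Q, ∑ q ∈ Icc 1 Q, (if f ∣ q then (1 / (q : ℝ)) * Tf N α f else 0) ≤ (1 + Real.log Q) * ((1 / (f : ℝ)) * Tf N α f) := by
    intro f hf
    rw [mem_Icc] at hf
    rw [← sum_filter, ← sum_mul]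
    have h3 := mul_le_mul_of_nonneg_right (inv_sum Q f hf.1) (Tf_nonneg N α f)
    refine h3.trans (le_of_eq ?_)
    ring
  refine (sum_le_sum h2).trans ?_
  rw [← mul_sum]

/-- small conductors, from the classes -/
lemma Tf_small (N f : ℕ) (hf : 1 ≤ f) (α : ℕ → ℂ) (M : ℝ)
    (hM : ∀ r < f, ‖∑ n ∈ (Icc 1 N).filter (fun n => n % f = r), α n‖ ≤ M) : (1 / (f : ℝ)) * Tf N α f ≤ f * M ^ 2 := by
  have hf0 : (0 : ℝ) < f := by exact_mod_cast (by omega : 0 < f)
  have h1 : Tf N α f ≤ ∑ b ∈ range f, ‖∑ n ∈ Icc 1 N, α n * ee (n * b / f)‖ ^ 2 := by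
    unfold Tf
    exact sum_le_sum_of_subset_of_nonneg (filter_subset _ _) (fun _ _ _ => by positivity)
  rw [← parseval_classes f N hf α] at h1
  have h2 : ∑ r ∈ range f, ‖∑ n ∈ (Icc 1 N).filter (fun n => n % f = r), α n‖ ^ 2 ≤ ∑ _r ∈ range f, M ^ 2 := by
    refine sum_le_sum fun r hr => ?_
    exact pow_le_pow_left₀ (norm_nonneg _) (hM r (mem_range.1 hr)) 2
  rw [sum_const, card_range, nsmul_eq_mul] at h2
  calc (1 / (f : ℝ)) * Tf N α f ≤ (1 / (f : ℝ)) * (f * (f * M ^ 2)) := by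
        apply mul_le_mul_of_nonneg_left _ (by positivity)
        exact h1.trans (mul_le_mul_of_nonneg_left h2 hf0.le)
    _ = f * M ^ 2 := by field_simp

lemma Tf_sub (N f : ℕ) (a b : ℕ → ℂ) : Tf N (fun n => a n - b n) f ≤ 2 * Tf N a f + 2 * Tf N b f := by
  unfold Tf
  rw [mul_sum, mul_sum, ← sum_add_distrib]
  refine sum_le_sum fun c _ => ?_
  have h1 : ∑ n ∈ Icc 1 N, (a n - b n) * ee (n * c / f) = ∑ n ∈ Icc 1 N, a n * ee (n * c / f) - ∑ n ∈ Icc 1 N, b n * ee (n * c / f) := by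
    rw [← sum_sub_distrib]
    exact sum_congr rfl fun n _ => by ring
  rw [h1]
  have h2 := norm_sub_le (∑ n ∈ Icc 1 N, a n * ee (n * c / f)) (∑ n ∈ Icc 1 N, b n * ee (n * c / f))
  set A := ‖∑ n ∈ Icc 1 N, a n * ee (n * c / f)‖
  set B := ‖∑ n ∈ Icc 1 N, b n * ee (n * c / f)‖
  have hA : 0 ≤ A := norm_nonneg _
  have hB : 0 ≤ B := norm_nonneg _
  have h3 := pow_le_pow_left₀ (norm_nonneg _) h2 2
  nlinarith [sq_nonneg (A - B)]

lemma Tf_smul (N f : ℕ) (κ : ℝ) (b : ℕ → ℂ) : Tf N (fun n => (κ : ℂ) * b n) f = κ ^ 2 * Tf N b f := by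
  unfold Tf
  rw [mul_sum]
  refine sum_congr rfl fun c _ => ?_
  have h1 : ∑ n ∈ Icc 1 N, ((κ : ℂ) * b n) * ee (n * c / f) = (κ : ℂ) * ∑ n ∈ Icc 1 N, b n * ee (n * c / f) := by
    rw [mul_sum]
    exact sum_congr rfl fun n _ => by ring
  rw [h1, norm_mul, mul_pow, Complex.norm_real, Real.norm_eq_abs, sq_abs]

lemma Tf_supp (N N' f : ℕ) (hN : N' ≤ N) (a : ℕ → ℂ) (ha : ∀ n, N' < n → a n = 0) : Tf N a f = Tf N' a f := by
  unfold Tf
  refine sum_congr rfl fun c _ => ?_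
  congr 2
  symm
  apply sum_subset (Icc_subset_Icc_right hN)
  intro n hn hn'
  rw [mem_Icc] at hn hn'
  rw [ha n (by omega), zero_mul]

/-- the number of elements of a class coprime to `W` -/
lemma count_dn (F : ℤ[X]) (W q r : ℕ) (hW : 1 ≤ W) (hq : 1 ≤ q) (hqW : q ∣ W) (hr : r < q) :
    (#((Icc 1 W).filter (fun m : ℕ => m % q = r ∧ Int.gcd (F.eval (m : ℤ)) W = 1)) : ℝ) = dn F q r * phiF F W := by
  have h1 := fibre' F W q r hW hq hqW hr
  unfold dn
  split_ifs with h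
  · rw [if_pos h] at h1
    have h2 : (0 : ℝ) < phiF F q := by exact_mod_cast phiF_pos F q r hr h
    field_simp
    rw [← h1]
  · have h2 : (Icc 1 W).filter (fun m : ℕ => m % q = r ∧ Int.gcd (F.eval (m : ℤ)) W = 1) = ∅ := by
      rw [filter_eq_empty_iff]
      rintro m _ ⟨h2, h3⟩
      apply h
      rw [cop_iff _ _ hq]
      rw [cop_iff _ _ hW] at h3
      intro p hp
      have hpp := Nat.prime_of_mem_primeFactors hp
      have hpq := Nat.dvd_of_mem_primeFactors hp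
      have h4 : m ≡ r [MOD q] := by
        rw [Nat.ModEq, h2, Nat.mod_eq_of_lt hr]
      rw [← dvd_mod F p m r (h4.of_dvd hpq)]
      exact h3 p (Nat.mem_primeFactors.2 ⟨hpp, hpq.trans hqW, by omega⟩)
    rw [h2, card_empty]
    push_cast
    ring

/-- **The mean square over all classes, with the expected main term.** -/
theorem assemble (x R0 Q : ℕ) (hx : 3 ≤ x) (hR : 1 ≤ R0) (hRx : R0 ≤ x) (hQx : Q ≤ x) (F : ℤ[X]) (a : ℕ → ℝ)
    (ha : ∀ n, |a n| ≤ 1) (ha0 : ∀ n, x < n → a n = 0) (M G : ℝ)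
    (hM : ∀ q, 1 ≤ q → q ≤ R0 → ∀ r < q, |∑ n ∈ (Icc 1 x).filter (fun n => n % q = r), a n - dn F q r * ∑ n ∈ Icc 1 x, a n| ≤ M)
    (hphi : 1 ≤ phiF F x.factorial) (hG : (x.factorial : ℝ) ≤ G * phiF F x.factorial) :
    ∑ q ∈ Icc 1 Q, ∑ r ∈ range q, (∑ n ∈ (Icc 1 x).filter (fun n => n % q = r), a n - dn F q r * ∑ n ∈ Icc 1 x, a n) ^ 2 ≤
      (1 + Real.log Q) * (R0 ^ 2 * M ^ 2 + 48 * x * (x / R0 + 2 * Q) + 240 * x ^ 2 * G / R0) := by
  classical
  obtain ⟨W, hW⟩ : ∃ W, W = x.factorial := ⟨_, rfl⟩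
  rw [← hW] at hphi hG
  have hW1 : 1 ≤ W := by rw [hW]; exact Nat.factorial_pos x
  have hxW : x ≤ W := by rw [hW]; exact Nat.self_le_factorial x
  have hx0 : (0 : ℝ) < x := by exact_mod_cast (by omega : 0 < x)
  have hWx : (x : ℝ) ^ 2 ≤ 2 * W := by
    have h1 : x * (x - 1) ≤ W := by
      obtain ⟨y, rfl⟩ : ∃ y, x = y + 1 := ⟨x - 1, by omega⟩
      rw [hW, Nat.factorial_succ, Nat.add_sub_cancel]
      exact Nat.mul_le_mul_left _ (Nat.self_le_factorial y)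
    have h2 : x * x ≤ 2 * W := by
      have h3 : x ≤ 2 * (x - 1) := by omega
      calc x * x ≤ x * (2 * (x - 1)) := Nat.mul_le_mul_left _ h3
        _ = 2 * (x * (x - 1)) := by ring
        _ ≤ 2 * W := Nat.mul_le_mul_left _ h1
    have h3 : ((x * x : ℕ) : ℝ) ≤ ((2 * W : ℕ) : ℝ) := by exact_mod_cast h2
    push_cast at h3
    rw [pow_two]
    exact h3
  have hdvd : ∀ q, 1 ≤ q → q ≤ x → q ∣ W := by
    intro q h1 h2
    rw [hW]
    exact Nat.dvd_factorial h1 h2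
  set π := ∑ n ∈ Icc 1 x, a n with hπ
  have hπx : |π| ≤ x := by
    rw [hπ]
    refine (abs_sum_le_sum_abs _ _).trans ?_
    calc ∑ n ∈ Icc 1 x, |a n| ≤ ∑ _n ∈ Icc 1 x, (1 : ℝ) := sum_le_sum fun n _ => ha n
      _ = x := by simp
  have hphr : (0 : ℝ) < phiF F W := by exact_mod_cast (by omega : 0 < phiF F W)
  set κ : ℝ := π / phiF F W with hκ
  set b : ℕ → ℂ := fun n => if Int.gcd (F.eval (n : ℤ)) W = 1 then 1 else 0 with hb
  set α : ℕ → ℂ := fun n => (a n : ℂ) - (κ : ℂ) * b n with hα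
  -- the class sums
  have hcls : ∀ q, 1 ≤ q → q ≤ x → ∀ r < q, ∑ n ∈ (Icc 1 W).filter (fun n => n % q = r), α n =
      ((∑ n ∈ (Icc 1 x).filter (fun n => n % q = r), a n - dn F q r * π : ℝ) : ℂ) := by
    intro q hq1 hq2 r hr
    rw [hα]
    simp only
    rw [sum_sub_distrib, ← mul_sum]
    have h1 : ∑ n ∈ (Icc 1 W).filter (fun n => n % q = r), (a n : ℂ) = ((∑ n ∈ (Icc 1 x).filter (fun n => n % q = r), a n : ℝ) : ℂ) := by
      rw [Complex.ofReal_sum]
      symm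
      apply sum_subset (filter_subset_filter _ (Icc_subset_Icc_right hxW))
      intro n hn hn'
      rw [mem_filter, mem_Icc] at hn hn'
      rw [ha0 n (by by_contra h; exact hn' ⟨⟨hn.1.1, by omega⟩, hn.2⟩), Complex.ofReal_zero]
    have h2 : ∑ n ∈ (Icc 1 W).filter (fun n => n % q = r), b n =
        ((#((Icc 1 W).filter (fun m : ℕ => m % q = r ∧ Int.gcd (F.eval (m : ℤ)) W = 1)) : ℝ) : ℂ) := by
      rw [hb, ← filter_filter, card_filter]
      push_cast
      exact sum_congr rfl fun n _ => by split_ifs <;> rfl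
    rw [h1, h2, count_dn F W q r hW1 hq1 (hdvd q hq1 hq2) hr, hκ]
    have h3 : ((phiF F W : ℕ) : ℂ) ≠ 0 := by
      have : phiF F W ≠ 0 := by omega
      exact_mod_cast this
    push_cast
    field_simp
  have hlog : 0 ≤ Real.log Q := Real.log_natCast_nonneg Q
  have h1 : ∑ q ∈ Icc 1 Q, ∑ r ∈ range q, (∑ n ∈ (Icc 1 x).filter (fun n => n % q = r), a n - dn F q r * π) ^ 2 =
      ∑ q ∈ Icc 1 Q, ∑ r ∈ range q, ‖∑ n ∈ (Icc 1 W).filter (fun n => n % q = r), α n‖ ^ 2 := by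
    refine sum_congr rfl fun q hq => sum_congr rfl fun r hr => ?_
    rw [mem_Icc] at hq
    rw [hcls q hq.1 (hq.2.trans hQx) r (mem_range.1 hr), Complex.norm_real, Real.norm_eq_abs, sq_abs]
  rw [h1]
  refine (bdh_gen W Q α).trans ?_
  apply mul_le_mul_of_nonneg_left _ (by linarith)
  have h3 : Icc 1 Q ⊆ Icc 1 R0 ∪ Ioc R0 Q := by
    intro f hf
    rw [mem_Icc] at hf
    rw [mem_union, mem_Icc, mem_Ioc]
    omega
  have hnn : ∀ f : ℕ, 0 ≤ (1 / (f : ℝ)) * Tf W α f := fun f => mul_nonneg (by positivity) (Tf_nonneg W α f)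
  have hR0 : (0 : ℝ) < R0 := by exact_mod_cast (by omega : 0 < R0)
  have hsmall : ∑ f ∈ Icc 1 R0, (1 / (f : ℝ)) * Tf W α f ≤ R0 ^ 2 * M ^ 2 := by
    calc ∑ f ∈ Icc 1 R0, (1 / (f : ℝ)) * Tf W α f ≤ ∑ _f ∈ Icc 1 R0, R0 * M ^ 2 := by
          refine sum_le_sum fun f hf => ?_
          rw [mem_Icc] at hf
          have h4 := Tf_small W f hf.1 α M (fun r hr => by
            rw [hcls f hf.1 (hf.2.trans hRx) r hr, Complex.norm_real, Real.norm_eq_abs]
            exact hM f hf.1 hf.2 r hr)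
          refine h4.trans ?_
          apply mul_le_mul_of_nonneg_right _ (by positivity)
          exact_mod_cast hf.2
      _ = R0 ^ 2 * M ^ 2 := by
          rw [sum_const, Nat.card_Icc, nsmul_eq_mul, Nat.add_sub_cancel]
          ring
  have hlarge : ∑ f ∈ Ioc R0 Q, (1 / (f : ℝ)) * Tf W α f ≤ 48 * x * (x / R0 + 2 * Q) + 240 * x ^ 2 * G / R0 := by
    have h4 : ∀ f ∈ Ioc R0 Q, (1 / (f : ℝ)) * Tf W α f ≤ 2 * ((1 / (f : ℝ)) * Tf x (fun n => (a n : ℂ)) f) +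
        2 * κ ^ 2 * ((1 / (f : ℝ)) * Tf W b f) := by
      intro f _
      have h5 := Tf_sub W f (fun n => (a n : ℂ)) (fun n => (κ : ℂ) * b n)
      rw [Tf_smul, Tf_supp W x f hxW (fun n => (a n : ℂ)) (fun n hn => by rw [ha0 n hn, Complex.ofReal_zero])] at h5
      have h6 := mul_le_mul_of_nonneg_left h5 (by positivity : (0 : ℝ) ≤ 1 / (f : ℝ))
      refine h6.trans (le_of_eq ?_)
      ring
    refine (sum_le_sum h4).trans ?_
    rw [sum_add_distrib, ← mul_sum, ← mul_sum]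
    have h5 := large_part x R0 Q hR (fun n => (a n : ℂ)) x (by
      calc ∑ n ∈ Icc 1 x, ‖(a n : ℂ)‖ ^ 2 ≤ ∑ _n ∈ Icc 1 x, (1 : ℝ) := sum_le_sum fun n _ => by
            rw [Complex.norm_real, Real.norm_eq_abs]
            exact pow_le_one₀ (abs_nonneg _) (ha n)
        _ = x := by simp)
    have h6 := large_part W R0 Q hR b (phiF F W) (by
      rw [← card_unit F W, card_filter]
      push_cast
      refine sum_le_sum fun n _ => ?_
      rw [hb]
      simp only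
      split_ifs <;> simp)
    have h7 : 2 * κ ^ 2 * ∑ f ∈ Ioc R0 Q, (1 / (f : ℝ)) * Tf W b f ≤ 240 * x ^ 2 * G / R0 := by
      have hQ0 : (0 : ℝ) ≤ Q := Nat.cast_nonneg _
      have hWr : (0 : ℝ) < W := by exact_mod_cast (by omega : 0 < W)
      have hG0 : 0 < G := by
        by_contra hcon
        push Not at hcon
        have := mul_nonpos_of_nonpos_of_nonneg hcon hphr.le
        linarith
      have hκ2 : κ ^ 2 * phiF F W ≤ x ^ 2 / phiF F W := by
        rw [hκ, div_pow]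
        have h8 : π ^ 2 ≤ (x : ℝ) ^ 2 := by
          rw [← sq_abs]
          exact pow_le_pow_left₀ (abs_nonneg _) hπx 2
        have e1 : π ^ 2 / (phiF F W : ℝ) ^ 2 * phiF F W = π ^ 2 / phiF F W := by
          field_simp
        rw [e1]
        exact div_le_div_of_nonneg_right h8 hphr.le
      have hbr : (W : ℝ) / R0 + 2 * Q ≤ 5 * W / R0 := by
        have h8 : 2 * (Q : ℝ) ≤ 4 * W / R0 := by
          rw [le_div_iff₀ hR0]
          have h9 : (Q : ℝ) * R0 ≤ x * x := by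
            apply mul_le_mul _ _ hR0.le hx0.le
            · exact_mod_cast hQx
            · exact_mod_cast hRx
          nlinarith
        have e1 : 5 * (W : ℝ) / R0 = W / R0 + 4 * W / R0 := by ring
        rw [e1]
        linarith
      calc 2 * κ ^ 2 * ∑ f ∈ Ioc R0 Q, (1 / (f : ℝ)) * Tf W b f ≤ 2 * κ ^ 2 * (24 * phiF F W * (W / R0 + 2 * Q)) :=
            mul_le_mul_of_nonneg_left h6 (by positivity)
        _ = 48 * (κ ^ 2 * phiF F W) * (W / R0 + 2 * Q) := by ring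
        _ ≤ 48 * (x ^ 2 / phiF F W) * (5 * W / R0) := by
            apply mul_le_mul _ hbr (by positivity) (by positivity)
            exact mul_le_mul_of_nonneg_left hκ2 (by norm_num)
        _ = (240 * x ^ 2 / R0) * (W / phiF F W) := by
            field_simp
            norm_num
        _ ≤ (240 * x ^ 2 / R0) * G := by
            apply mul_le_mul_of_nonneg_left _ (by positivity)
            rw [div_le_iff₀ hphr]
            exact hG
        _ = _ := by ring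
    have h8 := mul_le_mul_of_nonneg_left h5 (by norm_num : (0 : ℝ) ≤ 2)
    linarith
  calc ∑ f ∈ Icc 1 Q, (1 / (f : ℝ)) * Tf W α f ≤ ∑ f ∈ Icc 1 R0 ∪ Ioc R0 Q, (1 / (f : ℝ)) * Tf W α f :=
        sum_le_sum_of_subset_of_nonneg h3 (fun f _ _ => hnn f)
    _ ≤ ∑ f ∈ Icc 1 R0, (1 / (f : ℝ)) * Tf W α f + ∑ f ∈ Ioc R0 Q, (1 / (f : ℝ)) * Tf W α f := by
        rw [← sum_union_inter]
        have : 0 ≤ ∑ f ∈ Icc 1 R0 ∩ Ioc R0 Q, (1 / (f : ℝ)) * Tf W α f := sum_nonneg fun f _ => hnn f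
        linarith
    _ ≤ _ := by linarith

end Pool.Agent.Y868.TH
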