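import Pool.Agent.Y868.TH.Q5

/-! Prime values of almost all systems in all residue classes to large moduli. -/

set_option autoImplicit false

namespace Pool.Agent.Y868.TH

open Finset Filter
open Polynomial (X C)
open scoped Polynomial
open Pool.Agent.H373R2.T7 (pz Vz lamz mem_pz Vz_pos Vz_inv_le Vz_inv_small ev_L')
open Pool.Agent.TH204.WR (rho rho_le V_low)
open Pool.Agent.Y868.TA
open Pool.Agent.Y868.TC

lemma phiF_ge_one (F : ℤ[X]) (x : ℕ) (h : ∀ p : ℕ, p.Prime → rho F 0 p < p) : 1 ≤ phiF F x.factorial := by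
  have h1 := phiF_eq F x.factorial (Nat.factorial_pos x)
  have h2 : (0 : ℝ) < phiF F x.factorial := by
    rw [h1]
    apply mul_pos (by exact_mod_cast Nat.factorial_pos x)
    apply prod_pos
    intro p hp
    have hpp := Nat.prime_of_mem_primeFactors hp
    have hp0 : (0 : ℝ) < p := by exact_mod_cast hpp.pos
    rw [sub_pos, div_lt_one hp0]
    exact_mod_cast h p hpp
  exact_mod_cast h2

/-- **Prime values in all residue classes to large moduli.** -/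
theorem bdhP (k d U K : ℕ) (hk : 1 ≤ k) (hd : 2 ≤ d) : ∃ C0 x0 : ℕ, ∀ x : ℕ, x0 ≤ x →
    ∀ D B : ℕ, Real.log x ^ C0 ≤ D → (D : ℝ) ≤ (x : ℝ) ^ K →
    (D : ℝ) * x ≤ B * Real.log x ^ K → (B : ℝ) ≤ D * x * Real.log x ^ K →
    ∀ P : Fin k → ℤ[X], (∀ i, (P i).natDegree + 1 ≤ d) →
    (∀ i, ∀ m ∈ Icc 1 x, ((|(P i).eval (m : ℤ)| : ℤ) : ℝ) ≤ B * Real.log x ^ K) →
    ∀ c : Fin k → ℤ, (∀ i, c i ≠ 0) → (∀ i, ((|c i| : ℤ) : ℝ) ≤ B * x * Real.log x ^ K) →
    ∃ Bad ⊆ bx D B k, (#Bad : ℝ) ≤ ((D : ℝ) * B) ^ k / Real.log x ^ U ∧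
      ∀ e ∈ bx D B k, e ∉ Bad → (∀ p : ℕ, p.Prime → rho (∏ i, mem1 P c e i) 0 p < p) →
      ∀ u v : ℕ, u < v → v ≤ x → (∀ i, ∀ m ∈ Ioc u v, 3 ≤ (mem1 P c e i).eval (m : ℤ)) →
        ∀ Q : ℕ, (Q : ℝ) * Real.log x ^ (U + 3) ≤ x →
          ∑ q ∈ Icc 1 Q, ∑ r ∈ range q, ((cnt (mem1 P c e) ((Ioc u v).filter (fun m => m % q = r)) : ℝ) -
            dn (∏ i, mem1 P c e i) q r * cnt (mem1 P c e) (Ioc u v)) ^ 2 ≤ x ^ 2 / Real.log x ^ U := by
  classical
  obtain ⟨g, hg⟩ : ∃ g, g = k * d := ⟨_, rfl⟩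
  have hg1 : 1 ≤ g := by rw [hg]; exact Nat.one_le_iff_ne_zero.2 (Nat.mul_ne_zero (by omega) (by omega))
  obtain ⟨J, hJ⟩ : ∃ J, J = U + 6 * g + 5 := ⟨_, rfl⟩
  obtain ⟨C0, x1, h1⟩ := sw k d (U + J + 3) (J + 1) K hk hd
  obtain ⟨x2, h2⟩ := Vz_inv_log
  obtain ⟨x3, h3⟩ := ev_L' (2000 + (2 * (g : ℝ)) ^ (2 * g))
  obtain ⟨x4, h4⟩ := evt_polylog (J + 1)
  refine ⟨C0, max (max x1 x2) (max (max x3 x4) 3), fun x hx D B hD1 hD2 hDB hBD P hP hPB c hc0 hc => ?_⟩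
  have hx1' : x1 ≤ x := le_trans (le_trans (le_max_left _ _) (le_max_left _ _)) hx
  have hx2' : x2 ≤ x := le_trans (le_trans (le_max_right _ _) (le_max_left _ _)) hx
  have hx3' : x3 ≤ x := le_trans (le_trans (le_trans (le_max_left _ _) (le_max_left _ _)) (le_max_right _ _)) hx
  have hx4' : x4 ≤ x := le_trans (le_trans (le_trans (le_max_right _ _) (le_max_left _ _)) (le_max_right _ _)) hx
  have hx3 : 3 ≤ x := le_trans (le_trans (le_max_right _ _) (le_max_right _ _)) hx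
  have a2 := h2 x hx2'
  have a3 := h3 x hx3'
  have a4 := h4 x hx4'
  set L := Real.log x with hL
  have hg0 : (0 : ℝ) < (2 * (g : ℝ)) ^ (2 * g) := by
    have : (1 : ℝ) ≤ g := by exact_mod_cast hg1
    positivity
  have hL2000 : 2000 ≤ L := by linarith
  have hLg : (2 * (g : ℝ)) ^ (2 * g) ≤ L := by linarith
  have hL1 : 1 ≤ L := by linarith
  have hL0 : 0 < L := by linarith
  have hLp : ∀ n : ℕ, 0 < L ^ n := fun n => by positivity
  have hLp1 : ∀ n : ℕ, 1 ≤ L ^ n := fun n => one_le_pow₀ hL1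
  have hLL : ∀ {i j : ℕ}, i ≤ j → L ^ i ≤ L ^ j := fun h => pow_le_pow_right₀ hL1 h
  have hx0 : (0 : ℝ) < x := by exact_mod_cast (by omega : 0 < x)
  obtain ⟨Bad, hB1, hB2, hB3⟩ := h1 x hx1' D B hD1 hD2 hDB hBD P hP hPB c hc0 hc
  refine ⟨Bad, hB1, ?_, fun e he hbad hrho u v huv hvx h3v Q hQ => ?_⟩
  · refine hB2.trans ?_
    exact div_le_div_of_nonneg_left (by positivity) (hLp _) (hLL (by omega))
  set F : ℤ[X] := ∏ i, mem1 P c e i with hF
  have hdeg : F.natDegree ≤ g := by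
    rw [hF, hg]
    refine (Polynomial.natDegree_prod_le _ _).trans ?_
    calc ∑ i, (mem1 P c e i).natDegree ≤ ∑ _i : Fin k, d := sum_le_sum fun i _ => mem1_deg hd P hP c e i
      _ = k * d := by rw [sum_const, card_univ, Fintype.card_fin, smul_eq_mul]
  -- the cutoff for the conductors
  obtain ⟨R0, hR0d⟩ : ∃ R0 : ℕ, R0 = ⌈L ^ J⌉₊ := ⟨_, rfl⟩
  have hR1 : L ^ J ≤ R0 := by rw [hR0d]; exact Nat.le_ceil _
  have hR2 : (R0 : ℝ) ≤ 2 * L ^ J := by
    have h5 : (R0 : ℝ) ≤ L ^ J + 1 := by rw [hR0d]; exact (Nat.ceil_lt_add_one (by positivity)).le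
    have := hLp1 J
    linarith
  have hR3 : 1 ≤ R0 := by
    have : (1 : ℝ) ≤ R0 := (hLp1 _).trans hR1
    exact_mod_cast this
  have hR0r : (0 : ℝ) < R0 := by exact_mod_cast (by omega : 0 < R0)
  have hR4 : (R0 : ℝ) ≤ L ^ (J + 1) := by
    rw [pow_succ]
    have := hLp J
    nlinarith
  have hR5 : R0 ≤ x := by
    have : (R0 : ℝ) ≤ x := hR4.trans a4
    exact_mod_cast this
  have hQx : Q ≤ x := by
    have h5 : (Q : ℝ) * 1 ≤ Q * L ^ (U + 3) := mul_le_mul_of_nonneg_left (hLp1 _) (Nat.cast_nonneg _)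
    have : (Q : ℝ) ≤ x := by linarith
    exact_mod_cast this
  have hphi := phi_fact F g x hg1 hdeg hrho (L ^ 3) a2
  set a : ℕ → ℝ := fun n => if n ∈ Ioc u v ∧ ∀ i, ((mem1 P c e i).eval (n : ℤ)).toNat.Prime then 1 else 0 with ha
  have hcls : ∀ q r : ℕ, ∑ n ∈ (Icc 1 x).filter (fun n => n % q = r), a n =
      (cnt (mem1 P c e) ((Ioc u v).filter (fun m => m % q = r)) : ℝ) := by
    intro q r
    unfold cnt
    rw [ha, ← sum_filter, sum_const, nsmul_eq_mul, mul_one]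
    congr 2
    ext m
    simp only [mem_filter, mem_Icc, mem_Ioc]
    constructor
    · rintro ⟨⟨_, h5⟩, h6, h7⟩
      exact ⟨⟨h6, h5⟩, h7⟩
    · rintro ⟨⟨h6, h5⟩, h7⟩
      exact ⟨⟨⟨by omega, by omega⟩, h5⟩, h6, h7⟩
  have htot : ∑ n ∈ Icc 1 x, a n = (cnt (mem1 P c e) (Ioc u v) : ℝ) := by
    have h5 := hcls 1 0
    simp only [Nat.mod_one, filter_true] at h5
    exact h5
  have hmain := assemble x R0 Q hx3 hR3 hR5 hQx F a (fun n => by rw [ha]; simp only; split_ifs <;> simp)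
    (fun n hn => by
      rw [ha]
      simp only
      rw [if_neg]
      rintro ⟨h5, _⟩
      rw [mem_Ioc] at h5
      omega) (x / L ^ (U + J + 3)) ((2 * g) ^ (2 * g) * (L ^ 3) ^ (2 * g)) (fun q hq1 hq2 r hr => by
      rw [hcls, htot]
      refine hB3 e he hbad u v huv hvx h3v q hq1 ?_ r hr
      exact le_trans (by exact_mod_cast hq2) hR4) (phiF_ge_one F x hrho) hphi
  simp only [hcls, htot] at hmain
  refine hmain.trans ?_
  have hlogQ : Real.log Q ≤ L := by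
    rcases Nat.eq_zero_or_pos Q with h | h
    · rw [h]; simp; exact hL0.le
    · apply Real.log_le_log (by exact_mod_cast h)
      exact_mod_cast hQx
  have hlogQ0 : 0 ≤ Real.log Q := Real.log_natCast_nonneg Q
  have hJU : U + 3 ≤ J := by omega
  have e1 : (R0 : ℝ) ^ 2 * (x / L ^ (U + J + 3)) ^ 2 ≤ 4 * (x ^ 2 / L ^ (U + 3)) := by
    calc (R0 : ℝ) ^ 2 * (x / L ^ (U + J + 3)) ^ 2 ≤ (2 * L ^ J) ^ 2 * (x / L ^ (U + J + 3)) ^ 2 := by
          apply mul_le_mul_of_nonneg_right _ (by positivity)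
          exact pow_le_pow_left₀ hR0r.le hR2 2
      _ = (4 / L ^ (U + 3)) * (x ^ 2 / L ^ (U + 3)) := by
          rw [show U + J + 3 = (U + 3) + J by ring, pow_add L (U + 3) J]
          have := (hLp J).ne'
          have := (hLp (U + 3)).ne'
          field_simp
          ring
      _ ≤ 4 * (x ^ 2 / L ^ (U + 3)) := by
          apply mul_le_mul_of_nonneg_right _ (by positivity)
          exact div_le_self (by norm_num) (hLp1 _)
  have e4 : 48 * (x : ℝ) * (x / R0 + 2 * Q) ≤ 144 * (x ^ 2 / L ^ (U + 3)) := by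
    have e2 : (x : ℝ) / R0 ≤ x / L ^ (U + 3) := div_le_div_of_nonneg_left hx0.le (hLp _) ((hLL hJU).trans hR1)
    have e3 : (Q : ℝ) ≤ x / L ^ (U + 3) := by rw [le_div_iff₀ (hLp _)]; exact hQ
    calc 48 * (x : ℝ) * (x / R0 + 2 * Q) ≤ 48 * x * (x / L ^ (U + 3) + 2 * (x / L ^ (U + 3))) := by
          apply mul_le_mul_of_nonneg_left _ (by positivity)
          linarith
      _ = _ := by ring
  have e5 : 240 * (x : ℝ) ^ 2 * ((2 * g) ^ (2 * g) * (L ^ 3) ^ (2 * g)) / R0 ≤ 240 * (x ^ 2 / L ^ (U + 3)) := by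
    have h5 : (2 * (g : ℝ)) ^ (2 * g) * (L ^ 3) ^ (2 * g) ≤ L * L ^ (6 * g) := by
      rw [← pow_mul L 3 (2 * g), show 3 * (2 * g) = 6 * g by ring]
      exact mul_le_mul_of_nonneg_right hLg (hLp _).le
    rw [div_le_iff₀ hR0r]
    calc 240 * (x : ℝ) ^ 2 * ((2 * g) ^ (2 * g) * (L ^ 3) ^ (2 * g)) ≤ 240 * x ^ 2 * (L * L ^ (6 * g)) :=
          mul_le_mul_of_nonneg_left h5 (by positivity)
      _ = 240 * (x ^ 2 / L ^ (U + 3)) * L ^ (U + 6 * g + 4) := by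
          rw [show U + 6 * g + 4 = (U + 3) + (6 * g + 1) by ring, pow_add L (U + 3) (6 * g + 1), pow_succ L (6 * g)]
          have := (hLp (U + 3)).ne'
          field_simp
      _ ≤ 240 * (x ^ 2 / L ^ (U + 3)) * R0 := by
          apply mul_le_mul_of_nonneg_left _ (by positivity)
          refine le_trans (hLL ?_) hR1
          omega
  calc (1 + Real.log Q) * (R0 ^ 2 * (x / L ^ (U + J + 3)) ^ 2 + 48 * x * (x / R0 + 2 * Q) +
        240 * x ^ 2 * ((2 * g) ^ (2 * g) * (L ^ 3) ^ (2 * g)) / R0) ≤ (2 * L) * (388 * (x ^ 2 / L ^ (U + 3))) := by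
        apply mul_le_mul (by linarith) (by linarith) (by positivity) (by positivity)
    _ = (776 / L ^ 2) * (x ^ 2 / L ^ U) := by
        rw [show U + 3 = U + 2 + 1 by ring, pow_succ L (U + 2), pow_add L U 2]
        field_simp
        ring
    _ ≤ 1 * (x ^ 2 / L ^ U) := by
        apply mul_le_mul_of_nonneg_right _ (by positivity)
        rw [div_le_one (by positivity)]
        nlinarith
    _ = _ := one_mul _

end Pool.Agent.Y868.TH
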