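import Pool.Agent.Y868.TH.Q6
import Pool.Agent.Y868.TB.F2

/-! The Hardy-Littlewood formula in almost all progressions for almost all quadratics. -/

set_option autoImplicit false

namespace Pool.Agent.Y868.TH

open Finset Filter Topology
open Polynomial (X C)
open scoped Polynomial
open Pool.Agent.H373R2.T7 (pz Vz lamz mem_pz Vz_pos Vz_inv_le Vz_inv_small ev_L')
open Pool.Agent.TH204.WR (rho rho_le V_low)
open Pool.Agent.Y868.TA
open Pool.Agent.Y868.TC
open Pool.Agent.W468.ConjF (Admissible CF CF_pos)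
open Pool.Agent.W218.HF.QFinal (eps gcdProd cutC gcdProd_pos eps_pos)
open Pool.Agent.Y868.TB (evt_root dens_CF)

/-- the number of `u < m ≤ v` congruent to `r` modulo `q` at which the value is prime -/
def pcl (a b : ℕ) (c : ℤ) (u v q r : ℕ) : ℕ :=
  #((Ioc u v).filter (fun m : ℕ => m % q = r ∧ ((a : ℤ) * (m : ℤ) ^ 2 + b * m + c).toNat.Prime))

/-- the number of residues modulo `q` at which the value is coprime to `q` -/
def phq (a b : ℕ) (c : ℤ) (q : ℕ) : ℕ := #((range q).filter (fun r : ℕ => Int.gcd ((a : ℤ) * (r : ℤ) ^ 2 + b * r + c) q = 1))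

/-- the quadratic as a system -/
noncomputable def qd (a b : ℕ) (c : ℤ) : Fin 1 → ℤ[X] := mem1 (fun _ => 0) (fun _ => c) (fun _ => (a, b))

lemma qd_eval (a b : ℕ) (c : ℤ) (i : Fin 1) (m : ℤ) : (qd a b c i).eval m = (a : ℤ) * m ^ 2 + b * m + c := by
  unfold qd
  rw [mem1_eval]
  simp
  ring

lemma qd_prod (a b : ℕ) (c : ℤ) (m : ℤ) : (∏ i, qd a b c i).eval m = (a : ℤ) * m ^ 2 + b * m + c := by
  rw [Polynomial.eval_prod, Fin.prod_univ_one, qd_eval]

lemma qd_rho (a b : ℕ) (c : ℤ) (h : Admissible a b c) (p : ℕ) (hp : p.Prime) : rho (∏ i, qd a b c i) 0 p < p := by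
  refine lt_of_le_of_ne (rho_le _ _ _) ?_
  intro heq
  have h1 := dens_CF a b c h p hp.two_le
  have hpos : 0 < dens 0 c a b p := by
    rw [h1]
    have := CF_pos a b c p
    linarith
  have h3 : rho (pol 0 a b) c p = p := by
    have h4 : rho (pol 0 a b) c p = rho (∏ i, qd a b c i) 0 p := by
      unfold rho
      congr 1
      apply filter_congr
      intro m _
      have e1 : (pol 0 (a : ℤ) (b : ℤ)).eval (m : ℤ) + c = (∏ i, qd a b c i).eval (m : ℤ) + 0 := by
        rw [qd_prod]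
        unfold pol
        simp
        ring
      rw [e1]
    rw [h4, heq]
  have h2 : dens 0 c a b p = 0 := by
    unfold Pool.Agent.Y868.TA.dens Pool.Agent.TH204.WR.hh
    have h4 : ∏ p' ∈ pz p, (1 - (rho (pol 0 a b) c p' : ℝ) / p') = 0 := by
      apply prod_eq_zero (mem_pz.2 ⟨le_rfl, hp⟩)
      rw [h3, div_self (by exact_mod_cast hp.ne_zero), sub_self]
    rw [h4, mul_zero]
  linarith

lemma phq_eq (a b : ℕ) (c : ℤ) (q : ℕ) : phiF (∏ i, qd a b c i) q = phq a b c q := by
  unfold phiF phq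
  simp_rw [qd_prod]

lemma pcl_eq (a b : ℕ) (c : ℤ) (u v q r : ℕ) : cnt (qd a b c) ((Ioc u v).filter (fun m => m % q = r)) = pcl a b c u v q r := by
  unfold cnt pcl
  rw [filter_filter]
  congr 1
  apply filter_congr
  intro m _
  simp only [qd_eval, forall_const]

lemma pcl_all (a b : ℕ) (c : ℤ) (u v : ℕ) : cnt (qd a b c) (Ioc u v) =
    #((Ioc u v).filter (fun m : ℕ => ((a : ℤ) * (m : ℤ) ^ 2 + b * m + c).toNat.Prime)) := by
  unfold cnt
  congr 1
  apply filter_congr
  intro m _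
  simp only [qd_eval, forall_const]

/-- the sum of the reciprocals -/
lemma sum_phi (F : ℤ[X]) (g x Q : ℕ) (hQ : Q ≤ x) (hg : 1 ≤ g) (hF : F.natDegree ≤ g) (hrho : ∀ p : ℕ, p.Prime → rho F 0 p < p)
    (V : ℝ) (hV : (Vz x)⁻¹ ≤ V) :
    ∑ q ∈ Icc 1 Q, ∑ r ∈ range q, dn F q r ^ 2 ≤ ((2 * g) ^ (2 * g) * V ^ (2 * g)) * (1 + Real.log Q) := by
  have hVi : 0 < (Vz x)⁻¹ := inv_pos.2 (Vz_pos x)
  have hV0 : 0 < V := hVi.trans_le hV
  have hg0 : (0 : ℝ) < g := by exact_mod_cast hg
  set G : ℝ := (2 * (g : ℝ)) ^ (2 * g) * V ^ (2 * g) with hG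
  have hG0 : 0 < G := by positivity
  have h1 := V_low F 0 x g hg hF (fun p hp => hrho p (mem_pz.1 hp).2)
  have h2 : 1 ≤ G * ∏ p ∈ pz x, (1 - (rho F 0 p : ℝ) / p) := by
    have hV0' := Vz_pos x
    have h3 : 1 ≤ Vz x * V := by
      have := mul_le_mul_of_nonneg_left hV hV0'.le
      rwa [mul_inv_cancel₀ hV0'.ne'] at this
    have e1 : G * ((1 / (2 * (g : ℝ))) ^ (2 * g) * Vz x ^ (2 * g)) = (Vz x * V) ^ (2 * g) := by
      rw [hG, one_div_pow, mul_pow (Vz x) V]
      have : (2 * (g : ℝ)) ^ (2 * g) ≠ 0 := by positivity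
      field_simp
    have h4 : 1 ≤ G * ((1 / (2 * (g : ℝ))) ^ (2 * g) * Vz x ^ (2 * g)) := by
      rw [e1]; exact one_le_pow₀ h3
    exact h4.trans (mul_le_mul_of_nonneg_left h1 hG0.le)
  calc ∑ q ∈ Icc 1 Q, ∑ r ∈ range q, dn F q r ^ 2 ≤ ∑ q ∈ Icc 1 Q, G * (1 / (q : ℝ)) := by
        refine sum_le_sum fun q hq => ?_
        rw [mem_Icc] at hq
        have hq0 : (0 : ℝ) < q := by exact_mod_cast (by omega : 0 < q)
        have hphi := phiF_eq F q hq.1
        have h5 : ∏ p ∈ pz x, (1 - (rho F 0 p : ℝ) / p) ≤ ∏ p ∈ q.primeFactors, (1 - (rho F 0 p : ℝ) / p) := by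
          have hsub : q.primeFactors ⊆ pz x := by
            intro p hp
            rw [mem_pz]
            exact ⟨(Nat.le_of_mem_primeFactors hp).trans (hq.2.trans hQ), Nat.prime_of_mem_primeFactors hp⟩
          have hnn : ∀ p ∈ pz x, 0 ≤ 1 - (rho F 0 p : ℝ) / p ∧ 1 - (rho F 0 p : ℝ) / p ≤ 1 := by
            intro p hp
            have hp0 : (0 : ℝ) < p := by exact_mod_cast (mem_pz.1 hp).2.pos
            constructor
            · rw [sub_nonneg, div_le_one hp0]
              exact_mod_cast rho_le F 0 p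
            · have : (0 : ℝ) ≤ (rho F 0 p : ℝ) / p := by positivity
              linarith
          rw [← prod_sdiff hsub]
          have h9 : ∏ p ∈ pz x \ q.primeFactors, (1 - (rho F 0 p : ℝ) / p) ≤ 1 :=
            prod_le_one (fun p hp => (hnn p (sdiff_subset hp)).1) (fun p hp => (hnn p (sdiff_subset hp)).2)
          have h10 : 0 ≤ ∏ p ∈ q.primeFactors, (1 - (rho F 0 p : ℝ) / p) := prod_nonneg fun p hp => (hnn p (hsub hp)).1
          exact mul_le_of_le_one_left h10 h9
        have h6 : (q : ℝ) ≤ G * phiF F q := by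
          rw [hphi]
          calc (q : ℝ) = q * 1 := (mul_one _).symm
            _ ≤ q * (G * ∏ p ∈ q.primeFactors, (1 - (rho F 0 p : ℝ) / p)) := by
                apply mul_le_mul_of_nonneg_left _ hq0.le
                exact h2.trans (mul_le_mul_of_nonneg_left h5 hG0.le)
            _ = _ := by ring
        have hphi0 : (0 : ℝ) < phiF F q := by
          by_contra hcon
          push Not at hcon
          have := mul_nonpos_of_nonneg_of_nonpos hG0.le hcon
          linarith
        have h7 : ∑ r ∈ range q, dn F q r ^ 2 = 1 / (phiF F q : ℝ) := by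
          have h8 : ∀ r ∈ range q, dn F q r ^ 2 = if Int.gcd (F.eval (r : ℤ)) q = 1 then (1 / (phiF F q : ℝ)) ^ 2 else 0 := by
            intro r _
            unfold dn
            split_ifs
            · rfl
            · ring
          rw [sum_congr rfl h8, ← sum_filter, sum_const, nsmul_eq_mul]
          have h9 : ((#((range q).filter (fun r : ℕ => Int.gcd (F.eval (r : ℤ)) q = 1)) : ℕ) : ℝ) = phiF F q := rfl
          rw [h9]
          field_simp
        rw [h7, mul_one_div, div_le_div_iff₀ hphi0 hq0, one_mul]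
        exact h6
    _ = G * ∑ q ∈ Icc 1 Q, 1 / (q : ℝ) := by rw [mul_sum]
    _ ≤ _ := mul_le_mul_of_nonneg_left (harm_le Q) hG0.le

end Pool.Agent.Y868.TH
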